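import Pool.Agent.MVD.Stmts

/-!
Squad MVD, row STF: the substitution step for compound pins.
-/

namespace Pool.Agent.MVD.H47

open Pool.Agent.Helper14_MV Pool.Agent.Helper2_MV Pool.Agent.MVD

/-! ### words -/

theorem Bw_append (R1 R2 : List ℕ) (B : ℕ → List ℕ) :
    Bw (R1 ++ R2) B = Bw R1 B ++ Bw R2 B := by
  unfold Bw
  rw [List.flatMap_append]

theorem Bw_cons (r : ℕ) (R : List ℕ) (B : ℕ → List ℕ) :
    Bw (r :: R) B = B r ++ (3 * r + 2) :: Bw R B := by
  unfold Bw
  rw [List.flatMap_cons]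
  simp

theorem Bw_congr {R : List ℕ} {B B' : ℕ → List ℕ} (h : ∀ r ∈ R, B r = B' r) :
    Bw R B = Bw R B' := by
  unfold Bw
  exact List.flatMap_congr (fun r hr => by rw [h r hr])

theorem mem_Bw {R : List ℕ} {B : ℕ → List ℕ} {d : ℕ} (hs : ∀ r ∈ R, SFr (B r)) (hd : d % 3 = 2)
    (h : d ∈ Bw R B) : ∃ r ∈ R, d = 3 * r + 2 := by
  unfold Bw at h
  obtain ⟨r, hr, h⟩ := List.mem_flatMap.1 h
  rcases List.mem_append.1 h with h | h
  · exact absurd hd (hs r hr d h)
  · exact ⟨r, hr, by simpa using h⟩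

theorem count_Bw {R : List ℕ} {B : ℕ → List ℕ} {d : ℕ} (hn : R.Nodup)
    (hs : ∀ r ∈ R, SFr (B r)) (hd : d % 3 = 2) : (Bw R B).count d ≤ 1 := by
  induction R with
  | nil => simp [Bw]
  | cons r R ih =>
    rw [Bw_cons, List.count_append, List.count_cons]
    have h0 : (B r).count d = 0 :=
      List.count_eq_zero.2 (fun h => hs r (by simp) d h hd)
    have h1 := ih (List.nodup_cons.1 hn).2 (fun q hq => hs q (by simp [hq]))
    rw [h0]
    by_cases h : 3 * r + 2 = d
    · have h2 : (Bw R B).count d = 0 := by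
        rw [List.count_eq_zero]
        intro h3
        obtain ⟨q, hq, h4⟩ := mem_Bw (fun q hq => hs q (by simp [hq])) hd h3
        have : q = r := by omega
        exact (List.nodup_cons.1 hn).1 (this ▸ hq)
      rw [h2]
      split_ifs <;> omega
    · have : ((3 * r + 2 == d) = true) = False := by simp [h]
      simp only [this, if_false]
      omega

theorem cut_eq {S1 S2 S1' S2' : List ℕ} {r : ℕ} (hn : (S1 ++ r :: S2).Nodup)
    (h : S1 ++ r :: S2 = S1' ++ r :: S2') : S1 = S1' ∧ S2 = S2' := by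
  rw [List.nodup_append, List.nodup_cons] at hn
  have h1 : r ∉ S1 := fun h => hn.2.2 r h r (by simp) rfl
  obtain ⟨a, -, b⟩ := (List.append_cons_inj_of_notMem h1 hn.2.1.1).1 h
  exact ⟨a, b⟩

theorem split2 {R R1 R2 R1' R2' : List ℕ} {r r' : ℕ} (h : R = R1 ++ r :: R2)
    (h' : R = R1' ++ r' :: R2') (hne : r ≠ r') :
    (∃ T, R1' = R1 ++ r :: T) ∨ (∃ T, R1 = R1' ++ r' :: T) := by
  rw [h, List.append_eq_append_iff] at h'
  rcases h' with ⟨as, h1, h2⟩ | ⟨as, h1, h2⟩
  · cases as with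
    | nil =>
      rw [List.nil_append] at h2
      exact absurd (List.cons.inj h2).1 hne
    | cons a as =>
      rw [List.cons_append] at h2
      exact Or.inl ⟨as, by rw [h1, (List.cons.inj h2).1]⟩
  · cases as with
    | nil =>
      rw [List.nil_append] at h2
      exact absurd (List.cons.inj h2).1.symm hne
    | cons a as =>
      rw [List.cons_append] at h2
      exact Or.inr ⟨as, by rw [h1, (List.cons.inj h2).1]⟩

/-! ### the other block of a letter -/

/-- the block of the occurrence outside of the block `1` -/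
def own (d : ℕ) : ℕ := if d % 3 = 0 then 0 else d / 9 + 2

theorem own_x (a : ℕ) : own (3 * a) = 0 := by
  unfold own
  rw [if_pos (by omega)]

theorem own_z {l k : ℕ} (hk : k < 3) : own (3 * (3 * l + k) + 1) = l + 2 := by
  unfold own
  rw [if_neg (by omega)]
  omega

theorem mem_L3 {h : ℕ → List ℕ} {d : ℕ} : d ∈ L3 h ↔
    (∃ a < 4, d = 3 * a) ∨ ∃ k < 3, ∃ l ∈ h k, d = 3 * (3 * l + k) + 1 := by
  unfold L3 zs
  simp only [List.mem_cons, List.mem_append, List.mem_map, List.not_mem_nil, or_false]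
  constructor
  · rintro (h | ⟨_, ⟨l, hl, rfl⟩, rfl⟩ | h | ⟨_, ⟨l, hl, rfl⟩, rfl⟩ | h | ⟨_, ⟨l, hl, rfl⟩, rfl⟩ | h)
    · exact Or.inl ⟨0, by omega, by omega⟩
    · exact Or.inr ⟨0, by omega, l, hl, by omega⟩
    · exact Or.inl ⟨1, by omega, by omega⟩
    · exact Or.inr ⟨1, by omega, l, hl, by omega⟩
    · exact Or.inl ⟨2, by omega, by omega⟩
    · exact Or.inr ⟨2, by omega, l, hl, by omega⟩
    · exact Or.inl ⟨3, by omega, by omega⟩
  · rintro (⟨a, ha, rfl⟩ | ⟨k, hk, l, hl, rfl⟩)
    · interval_cases a <;> simp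
    · interval_cases k
      · exact Or.inr (Or.inl ⟨_, ⟨l, hl, rfl⟩, by omega⟩)
      · exact Or.inr (Or.inr (Or.inr (Or.inl ⟨_, ⟨l, hl, rfl⟩, by omega⟩)))
      · exact Or.inr (Or.inr (Or.inr (Or.inr (Or.inr (Or.inl ⟨_, ⟨l, hl, rfl⟩, by omega⟩)))))

theorem mem_Z3 {r d : ℕ} : d ∈ Z3 r ↔ ∃ k < 3, d = 3 * (3 * (r - 2) + k) + 1 := by
  unfold Z3
  simp only [List.mem_cons, List.not_mem_nil, or_false]
  constructor
  · rintro (h | h | h)
    · exact ⟨0, by omega, by omega⟩
    · exact ⟨1, by omega, by omega⟩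
    · exact ⟨2, by omega, by omega⟩
  · rintro ⟨k, hk, rfl⟩
    interval_cases k
    · left; omega
    · right; left; omega
    · right; right; omega

/-- adjacent letters of the main block have different other blocks -/
theorem chain_L3 {h : ℕ → List ℕ} {m : ℕ} (hm : 1 ≤ m)
    (hh : ∀ k < 3, (h k).Perm (List.range m)) :
    List.IsChain (fun u v => own u ≠ own v) (L3 h) := by
  have hnd : ∀ k < 3, (h k).Nodup := fun k hk => (hh k hk).nodup_iff.2 List.nodup_range
  have key : ∀ (D : List ℕ) (k : ℕ), k < 3 → D.Nodup →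
      List.IsChain (fun u v => own u ≠ own v) (zs (D.map (fun i => 3 * i + k))) := by
    intro D k hk hD
    unfold zs
    rw [List.map_map, List.isChain_map]
    refine (List.Pairwise.imp ?_ hD).isChain
    intro a b hab
    simp only [Function.comp]
    rw [own_z hk, own_z hk]
    omega
  have ne0 : ∀ (D : List ℕ) (k : ℕ), k < 3 → ∀ v ∈ zs (D.map (fun i => 3 * i + k)), own v ≠ 0 := by
    intro D k hk v hv
    unfold zs at hv
    rw [List.map_map, List.mem_map] at hv
    obtain ⟨l, -, rfl⟩ := hv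
    simp only [Function.comp]
    rw [own_z hk]
    omega
  have step : ∀ (a : ℕ) (D L : List ℕ) (k : ℕ), k < 3 → D.Nodup → D ≠ [] →
      List.IsChain (fun u v => own u ≠ own v) L → (∀ y ∈ L.head?, own y = 0) →
      List.IsChain (fun u v => own u ≠ own v) (3 * a :: (zs (D.map (fun i => 3 * i + k)) ++ L)) := by
    intro a D L k hk hD hne hL hy
    rw [← List.singleton_append, List.isChain_append, List.isChain_append]
    refine ⟨List.isChain_singleton _, ⟨key D k hk hD, hL, ?_⟩, ?_⟩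
    · intro u hu v hv
      rw [hy v hv]
      exact ne0 D k hk u (List.mem_of_getLast? hu)
    · intro u hu v hv
      simp only [List.getLast?_singleton, Option.mem_def, Option.some.injEq] at hu
      rw [← hu, own_x]
      have : v ∈ zs (D.map (fun i => 3 * i + k)) := by
        obtain ⟨d, D', rfl⟩ := List.exists_cons_of_ne_nil hne
        simp only [zs, List.map_cons, List.cons_append, List.head?_cons, Option.mem_def,
          Option.some.injEq] at hv
        rw [← hv]
        simp [zs]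
      exact (ne0 D k hk v this).symm
  have hne : ∀ k < 3, h k ≠ [] := by
    intro k hk h0
    have := (hh k hk).length_eq
    rw [h0, List.length_nil, List.length_range] at this
    omega
  have e : L3 h = 3 * 0 :: (zs ((h 0).map (fun i => 3 * i + 0)) ++ 3 * 1 ::
      (zs ((h 1).map (fun i => 3 * i + 1)) ++ 3 * 2 ::
        (zs ((h 2).map (fun i => 3 * i + 2)) ++ [3 * 3]))) := rfl
  rw [e]
  refine step 0 _ _ 0 (by omega) (hnd 0 (by omega)) (hne 0 (by omega)) ?_ ?_
  · refine step 1 _ _ 1 (by omega) (hnd 1 (by omega)) (hne 1 (by omega)) ?_ ?_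
    · refine step 2 _ _ 2 (by omega) (hnd 2 (by omega)) (hne 2 (by omega)) ?_ ?_
      · exact List.isChain_singleton _
      · intro y hy
        simp only [List.head?_cons, Option.mem_def, Option.some.injEq] at hy
        rw [← hy, own_x]
    · intro y hy
      simp only [List.head?_cons, Option.mem_def, Option.some.injEq] at hy
      rw [← hy, own_x]
  · intro y hy
    simp only [List.head?_cons, Option.mem_def, Option.some.injEq] at hy
    rw [← hy, own_x]

theorem nodup_L3 {h : ℕ → List ℕ} (hnd : ∀ k < 3, (h k).Nodup) : (L3 h).Nodup := by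
  have step : ∀ (a : ℕ) (D L : List ℕ) (k : ℕ), k < 3 → D.Nodup → L.Nodup →
      (∀ v ∈ L, v ≠ 3 * a) → (∀ v ∈ L, ∀ l, v ≠ 3 * (3 * l + k) + 1) →
      (3 * a :: (zs (D.map (fun i => 3 * i + k)) ++ L)).Nodup := by
    intro a D L k hk hD hL h1 h2
    rw [List.nodup_cons, List.nodup_append]
    refine ⟨?_, ?_, hL, ?_⟩
    · intro hm
      rcases List.mem_append.1 hm with hm | hm
      · unfold zs at hm
        rw [List.map_map, List.mem_map] at hm
        obtain ⟨l, -, e⟩ := hm
        simp only [Function.comp] at e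
        omega
      · exact h1 _ hm rfl
    · unfold zs
      rw [List.map_map]
      refine hD.map ?_
      intro x y hxy
      simp only [Function.comp] at hxy
      omega
    · intro u hu v hv huv
      unfold zs at hu
      rw [List.map_map, List.mem_map] at hu
      obtain ⟨l, -, e⟩ := hu
      simp only [Function.comp] at e
      exact h2 v hv l (by omega)
  have e : L3 h = 3 * 0 :: (zs ((h 0).map (fun i => 3 * i + 0)) ++ 3 * 1 ::
      (zs ((h 1).map (fun i => 3 * i + 1)) ++ 3 * 2 ::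
        (zs ((h 2).map (fun i => 3 * i + 2)) ++ [3 * 3]))) := rfl
  rw [e]
  refine step 0 _ _ 0 (by omega) (hnd 0 (by omega)) (step 1 _ _ 1 (by omega) (hnd 1 (by omega))
    (step 2 _ _ 2 (by omega) (hnd 2 (by omega)) (List.nodup_singleton _) ?_ ?_) ?_ ?_) ?_ ?_
  · intro v hv
    simp only [List.mem_singleton] at hv
    omega
  · intro v hv
    simp only [List.mem_singleton] at hv
    omega
  · intro v hv
    simp only [zs, List.map_map, List.mem_cons, List.mem_append, List.mem_map, Function.comp,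
      List.not_mem_nil, or_false] at hv
    rcases hv with hv | ⟨l, -, hv⟩ | hv <;> omega
  · intro v hv
    simp only [zs, List.map_map, List.mem_cons, List.mem_append, List.mem_map, Function.comp,
      List.not_mem_nil, or_false] at hv
    rcases hv with hv | ⟨l, -, hv⟩ | hv <;> omega
  · intro v hv
    simp only [zs, List.map_map, List.mem_cons, List.mem_append, List.mem_map, Function.comp,
      List.not_mem_nil, or_false] at hv
    rcases hv with hv | ⟨l, -, hv⟩ | hv | ⟨l, -, hv⟩ | hv <;> omega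
  · intro v hv
    simp only [zs, List.map_map, List.mem_cons, List.mem_append, List.mem_map, Function.comp,
      List.not_mem_nil, or_false] at hv
    rcases hv with hv | ⟨l, -, hv⟩ | hv | ⟨l, -, hv⟩ | hv <;> omega

theorem between {l U Λ V P T S : List ℕ} {x y : ℕ} (hn : l.Nodup) (h : l = U ++ (Λ ++ V))
    (h' : l = P ++ x :: (T ++ y :: S)) (hx : x ∈ Λ) (hy : y ∈ Λ) : ∀ z ∈ T, z ∈ Λ := by
  obtain ⟨Λ1, Λ2, rfl⟩ := List.append_of_mem hx
  have h2 : l = (U ++ Λ1) ++ x :: (Λ2 ++ V) := by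
    rw [h]
    simp [List.append_assoc]
  have hn' := hn
  rw [h'] at h2 hn
  obtain ⟨e1, e2⟩ := cut_eq hn h2
  have hy2 : y ∈ Λ2 := by
    rcases List.mem_append.1 hy with h3 | h3
    · exfalso
      rw [List.nodup_append] at hn
      exact hn.2.2 y (by rw [e1]; simp [h3]) y (by simp) rfl
    · rcases List.mem_cons.1 h3 with h4 | h4
      · exfalso
        rw [List.nodup_append, List.nodup_cons] at hn
        exact hn.2.1.1 (by rw [← h4]; simp)
      · exact h4
  obtain ⟨Λ3, Λ4, rfl⟩ := List.append_of_mem hy2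
  have hn3 : (T ++ y :: S).Nodup := by
    rw [List.nodup_append, List.nodup_cons] at hn
    exact hn.2.1.2
  have e3 : T ++ y :: S = Λ3 ++ y :: (Λ4 ++ V) := by
    rw [e2]
    simp [List.append_assoc]
  obtain ⟨e4, -⟩ := cut_eq hn3 e3
  intro z hz
  rw [e4] at hz
  simp [hz]

/-- a factor with two local letters contains a copy of the chain -/
theorem copy_L3 {h : ℕ → List ℕ} (hnd : ∀ k < 3, (h k).Nodup) {Λ : List ℕ} (hΛ : Λ <:+: L3 h)
    {a b : ℕ} (hab : a < b) (hb : b < 4) (ha' : 3 * a ∈ Λ) (hb' : 3 * b ∈ Λ) :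
    ∀ l ∈ h a, 3 * (3 * l + a) + 1 ∈ Λ := by
  obtain ⟨U, V, hUV⟩ := hΛ
  have h1 : L3 h = U ++ (Λ ++ V) := by rw [← hUV, List.append_assoc]
  have hn := nodup_L3 hnd
  have mz : ∀ (D : List ℕ) (k l : ℕ), l ∈ D → 3 * (3 * l + k) + 1 ∈ zs (D.map (fun i => 3 * i + k)) := by
    intro D k l hl
    unfold zs
    rw [List.map_map, List.mem_map]
    exact ⟨l, hl, rfl⟩
  intro l hl
  have ha : a < 3 := by omega
  set z0 := zs ((h 0).map (fun i => 3 * i + 0)) with hz0
  set z1 := zs ((h 1).map (fun i => 3 * i + 1)) with hz1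
  set z2 := zs ((h 2).map (fun i => 3 * i + 2)) with hz2
  have e : L3 h = 3 * 0 :: (z0 ++ 3 * 1 :: (z1 ++ 3 * 2 :: (z2 ++ [3 * 3]))) := rfl
  interval_cases a
  · have hz := mz (h 0) 0 l hl
    rw [← hz0] at hz
    interval_cases b
    · exact between (P := []) (T := z0) (S := z1 ++ 3 * 2 :: (z2 ++ [3 * 3])) hn h1
        (by rw [e]; simp) ha' hb' _ hz
    · exact between (P := []) (T := z0 ++ 3 * 1 :: z1) (S := z2 ++ [3 * 3]) hn h1
        (by rw [e]; simp) ha' hb' _ (by simp only [List.mem_append]; exact Or.inl hz)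
    · exact between (P := []) (T := z0 ++ 3 * 1 :: (z1 ++ 3 * 2 :: z2)) (S := []) hn h1
        (by rw [e]; simp) ha' hb' _ (by simp only [List.mem_append]; exact Or.inl hz)
  · have hz := mz (h 1) 1 l hl
    rw [← hz1] at hz
    interval_cases b
    · exact between (P := 3 * 0 :: z0) (T := z1) (S := z2 ++ [3 * 3]) hn h1
        (by rw [e]; simp) ha' hb' _ hz
    · exact between (P := 3 * 0 :: z0) (T := z1 ++ 3 * 2 :: z2) (S := []) hn h1
        (by rw [e]; simp) ha' hb' _ (by simp only [List.mem_append]; exact Or.inl hz)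
  · have hz := mz (h 2) 2 l hl
    rw [← hz2] at hz
    interval_cases b
    exact between (P := 3 * 0 :: (z0 ++ 3 * 1 :: z1)) (T := z2) (S := []) hn h1
        (by rw [e]; simp) ha' hb' _ hz

theorem filter_L3 (h : ℕ → List ℕ) :
    (L3 h).filter (fun d => decide (d % 3 = 0)) = [0, 3, 6, 9] := by
  have key : ∀ D : List ℕ, (zs D).filter (fun d => decide (d % 3 = 0)) = [] := by
    intro D
    rw [List.filter_eq_nil_iff]
    intro d hd
    unfold zs at hd
    obtain ⟨e, -, rfl⟩ := List.mem_map.1 hd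
    rw [decide_eq_true_eq]
    omega
  unfold L3
  simp [key]

/-! ### images of words with blocks -/

theorem img_split (R1 R2 : List ℕ) (r : ℕ) (Wb φ : ℕ → List ℕ) (M Q : List ℕ) :
    M ++ ((Bw (R1 ++ r :: R2) Wb).flatMap φ ++ Q) = (M ++ (Bw R1 Wb).flatMap φ) ++
      ((Wb r).flatMap φ ++ (φ (3 * r + 2) ++ ((Bw R2 Wb).flatMap φ ++ Q))) := by
  rw [Bw_append, Bw_cons, List.flatMap_append, List.flatMap_append, List.flatMap_cons]
  simp only [List.append_assoc]

theorem two_count {R : List ℕ} {Wb φ : ℕ → List ℕ} {M Q : List ℕ} {r r' d : ℕ}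
    (hr : r ∈ R) (hr' : r' ∈ R) (hne : r ≠ r') (hd : d ∈ (Wb r).flatMap φ)
    (hd' : d ∈ (Wb r').flatMap φ) : 2 ≤ (M ++ ((Bw R Wb).flatMap φ ++ Q)).count d := by
  obtain ⟨R1, R2, h⟩ := List.append_of_mem hr
  obtain ⟨R1', R2', h'⟩ := List.append_of_mem hr'
  have c1 : 1 ≤ ((Wb r).flatMap φ).count d := List.count_pos_iff.2 hd
  have c2 : 1 ≤ ((Wb r').flatMap φ).count d := List.count_pos_iff.2 hd'
  rcases split2 h h' hne with ⟨T, e⟩ | ⟨T, e⟩
  · rw [h', e, img_split, Bw_append, Bw_cons, List.flatMap_append, List.flatMap_append]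
    simp only [List.count_append]
    omega
  · rw [h, e, img_split, Bw_append, Bw_cons, List.flatMap_append, List.flatMap_append]
    simp only [List.count_append]
    omega

/-- the image of the block `r` lies in the block `ρ` -/
def Loc (R : List ℕ) (B Wb φ : ℕ → List ℕ) (M : List ℕ) (r ρ : ℕ) : Prop :=
  ∃ R1 R2 S1 S2 a c, R = R1 ++ r :: R2 ∧ R = S1 ++ ρ :: S2 ∧
    B ρ = a ++ ((Wb r).flatMap φ ++ c) ∧ M ++ (Bw R1 Wb).flatMap φ = Bw S1 B ++ a

theorem Loc.ne {R : List ℕ} {B Wb φ : ℕ → List ℕ} {M : List ℕ} {r r' ρ d : ℕ}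
    (h : Loc R B Wb φ M r ρ) (h' : Loc R B Wb φ M r' ρ) (hne : r ≠ r') (hR : R.Nodup)
    (hB : (B ρ).Nodup) (hd : d ∈ (Wb r).flatMap φ) (hd' : d ∈ (Wb r').flatMap φ) : False := by
  obtain ⟨R1, R2, S1, S2, a, c, e1, e2, e3, e4⟩ := h
  obtain ⟨R1', R2', S1', S2', a', c', e1', e2', e3', e4'⟩ := h'
  have hS : S1 = S1' := by
    have h1 : S1 ++ ρ :: S2 = S1' ++ ρ :: S2' := by rw [← e2, ← e2']
    rw [e2] at hR
    exact (cut_eq hR h1).1
  subst hS
  rcases split2 e1 e1' hne with ⟨T, e⟩ | ⟨T, e⟩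
  · rw [e, Bw_append, Bw_cons, List.flatMap_append, List.flatMap_append, ← List.append_assoc, e4,
      List.append_assoc] at e4'
    have e5 := List.append_cancel_left e4'
    rw [← e5, List.append_assoc, List.append_assoc] at e3'
    rw [e3', List.nodup_append, List.nodup_append] at hB
    exact hB.2.1.2.2 d hd d (by simp only [List.mem_append]; exact Or.inr (Or.inl hd')) rfl
  · rw [e, Bw_append, Bw_cons, List.flatMap_append, List.flatMap_append, ← List.append_assoc, e4',
      List.append_assoc] at e4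
    have e5 := List.append_cancel_left e4
    rw [← e5, List.append_assoc, List.append_assoc] at e3
    rw [e3, List.nodup_append, List.nodup_append] at hB
    exact hB.2.1.2.2 d hd' d (by simp only [List.mem_append]; exact Or.inr (Or.inl hd)) rfl

theorem chain_inf {S : ℕ → ℕ → Prop} {l l1 : List ℕ} (h : List.IsChain S l) (hi : l1 <:+: l) :
    List.IsChain S l1 := by
  obtain ⟨a, c, rfl⟩ := hi
  rw [List.isChain_append, List.isChain_append] at h
  exact h.1.2.1

theorem map_div {l : List ℕ} (h : ∀ d ∈ l, d % 3 = 0) :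
    (l.map (fun d => d / 3)).map (fun i => 3 * i) = l := by
  rw [List.map_map]
  conv_rhs => rw [← List.map_id l]
  apply List.map_congr_left
  intro d hd
  have := h d hd
  simp only [Function.comp, id]
  omega

theorem stf (_ : UniStmt) (hFac : FacStmt) : StfStmt := by
  intro m R G c0 hm hR hG hc0 s s' hs hs' hchk φ M Q t hF
  have hF' := hF
  obtain ⟨ht, h, B, hGh, hB0, hB1, hBr, hN⟩ := hF
  have hRn : R.Nodup := hR.nodup_iff.2 List.nodup_range
  have hRm : ∀ r, r ∈ R ↔ r < m + 2 := fun r => by rw [hR.mem_iff, List.mem_range]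
  have hhp : ∀ k < 3, (h k).Perm (List.range m) := fun k hk => hG _ (hGh k hk)
  have hhn : ∀ k < 3, (h k).Nodup := fun k hk => (hhp k hk).nodup_iff.2 List.nodup_range
  have htm : ∀ i, i ∈ t ↔ i < 4 := fun i => by rw [ht.mem_iff, mem_X]
  have hsm : ∀ i, i ∈ s ↔ i < 4 := fun i => by rw [hs.mem_iff, mem_X]
  have hsm' : ∀ i, i ∈ s' ↔ i < 4 := fun i => by rw [hs'.mem_iff, mem_X]
  have hcm : ∀ l, l ∈ c0 ↔ l < m := fun l => by rw [(hG _ hc0).mem_iff, List.mem_range]
  -- the blocks of the instance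
  have mB0 : ∀ d ∈ B 0, ∃ a < 4, d = 3 * a := by
    intro d hd
    rw [hB0, List.mem_map] at hd
    obtain ⟨a, ha, rfl⟩ := hd
    exact ⟨a, (htm a).1 ha, rfl⟩
  have mBr : ∀ r ∈ R, 2 ≤ r → ∀ d ∈ B r, ∃ k < 3, d = 3 * (3 * (r - 2) + k) + 1 := by
    intro r hr h2 d hd
    exact mem_Z3.1 ((hBr r hr h2).mem_iff.1 hd)
  have P0 : ∀ r ∈ R, SFr (B r) := by
    intro r hr d hd
    by_cases h0 : r = 0
    · subst h0
      obtain ⟨a, -, rfl⟩ := mB0 d hd
      omega
    · by_cases h1 : r = 1
      · subst h1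
        rw [hB1] at hd
        rcases mem_L3.1 hd with ⟨a, -, rfl⟩ | ⟨k, -, l, -, rfl⟩ <;> omega
      · obtain ⟨k, -, rfl⟩ := mBr r hr (by omega) d hd
        omega
  have P1 : ∀ r ∈ R, r ≠ 1 → ∀ d ∈ B r, own d = r := by
    intro r hr h1 d hd
    by_cases h0 : r = 0
    · subst h0
      obtain ⟨a, -, rfl⟩ := mB0 d hd
      exact own_x a
    · obtain ⟨k, hk, rfl⟩ := mBr r hr (by omega) d hd
      rw [own_z hk]
      omega
  have P2 : ∀ r ∈ R, (B r).Nodup := by
    intro r hr
    by_cases h0 : r = 0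
    · subst h0
      rw [hB0]
      refine (ht.nodup_iff.2 (by decide)).map ?_
      intro x y hxy
      simp only at hxy
      omega
    · by_cases h1 : r = 1
      · subst h1
        rw [hB1]
        exact nodup_L3 hhn
      · rw [(hBr r hr (by omega)).nodup_iff]
        unfold Z3
        simp only [List.nodup_cons, List.mem_cons, List.not_mem_nil, or_false, not_or,
          List.nodup_nil, and_true, not_false_eq_true]
        omega
  have P3 : List.IsChain (fun u v => own u ≠ own v) (B 1) := by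
    rw [hB1]
    exact chain_L3 hm hhp
  -- the blocks of the word
  set Wb : ℕ → List ℕ := fun r => if r = 0 then s.map (fun i => 3 * i)
    else if r = 1 then L3 (fun _ => c0) else Z3 r with hWb
  have hFw : Fw R s c0 = Bw R Wb := rfl
  have W0 : ∀ u, u ∈ Wb 0 ↔ ∃ a < 4, u = 3 * a := by
    intro u
    simp only [hWb, if_true, List.mem_map]
    constructor
    · rintro ⟨a, ha, rfl⟩
      exact ⟨a, (hsm a).1 ha, rfl⟩
    · rintro ⟨a, ha, rfl⟩
      exact ⟨a, (hsm a).2 ha, rfl⟩
  have W1 : ∀ u, u ∈ Wb 1 ↔ (∃ a < 4, u = 3 * a) ∨ ∃ k < 3, ∃ l < m, u = 3 * (3 * l + k) + 1 := by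
    intro u
    simp only [hWb, Nat.one_ne_zero, if_false, if_true]
    rw [mem_L3]
    simp only [hcm]
  have W2 : ∀ r, 2 ≤ r → ∀ u, u ∈ Wb r ↔ ∃ k < 3, u = 3 * (3 * (r - 2) + k) + 1 := by
    intro r hr u
    simp only [hWb, if_neg (show ¬ r = 0 by omega), if_neg (show ¬ r = 1 by omega)]
    exact mem_Z3
  have other : ∀ r ∈ R, ∀ u ∈ Wb r, ∃ r' ∈ R, r ≠ r' ∧ u ∈ Wb r' := by
    intro r hr u hu
    by_cases h0 : r = 0
    · subst h0
      exact ⟨1, (hRm 1).2 (by omega), by omega, (W1 u).2 (Or.inl ((W0 u).1 hu))⟩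
    · by_cases h1 : r = 1
      · subst h1
        rcases (W1 u).1 hu with h2 | ⟨k, hk, l, hl, e⟩
        · exact ⟨0, (hRm 0).2 (by omega), by omega, (W0 u).2 h2⟩
        · exact ⟨l + 2, (hRm _).2 (by omega), by omega,
            (W2 _ (by omega) u).2 ⟨k, hk, by rw [e, Nat.add_sub_cancel]⟩⟩
      · obtain ⟨k, hk, e⟩ := (W2 r (by omega) u).1 hu
        have := (hRm r).1 hr
        exact ⟨1, (hRm 1).2 (by omega), by omega,
          (W1 u).2 (Or.inr ⟨k, hk, r - 2, by omega, e⟩)⟩
  rw [hFw] at hN hF'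
  have sf : ∀ r ∈ R, SFr ((Wb r).flatMap φ) := by
    intro r hr d hd hd2
    obtain ⟨u, hu, hdu⟩ := List.mem_flatMap.1 hd
    obtain ⟨r', hr', hne, hu'⟩ := other r hr u hu
    have h1 := two_count (M := M) (Q := Q) hr hr' hne hd (List.mem_flatMap.2 ⟨u, hu', hdu⟩)
    rw [hN] at h1
    have h2 := count_Bw hRn P0 hd2
    omega
  have hloc : ∀ r, r ∈ R → (Wb r).flatMap φ ≠ [] → ∃ ρ, ρ ∈ R ∧ Loc R B Wb φ M r ρ := by
    intro r hr hne
    obtain ⟨R1, R2, e⟩ := List.append_of_mem hr
    have e1 := img_split R1 R2 r Wb φ M Q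
    rw [← e, hN] at e1
    obtain ⟨S1, ρ, S2, a, c, g1, g2, g3, -⟩ := hFac R B _ _ _ P0 (sf r hr) hne e1
    exact ⟨ρ, by rw [g1]; simp, R1, R2, S1, S2, a, c, e, g1, g2, g3⟩
  -- the block of `Y`
  obtain ⟨T1, T2, eR⟩ := List.append_of_mem ((hRm 0).2 (by omega))
  have h0T : 0 ∉ T1 ∧ 0 ∉ T2 := by
    rw [eR, List.nodup_append, List.nodup_cons] at hRn
    exact ⟨fun h => hRn.2.2 0 h 0 (by simp) rfl, hRn.2.1.1⟩
  have eN := img_split T1 T2 0 Wb φ M Q
  have eN' : M ++ ((Fw R s' c0).flatMap φ ++ Q) = (M ++ (Bw T1 Wb).flatMap φ) ++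
      ((s'.map (fun i => 3 * i)).flatMap φ ++
        (φ (3 * 0 + 2) ++ ((Bw T2 Wb).flatMap φ ++ Q))) := by
    have e1 := img_split T1 T2 0 (fun r => if r = 0 then s'.map (fun i => 3 * i)
      else if r = 1 then L3 (fun _ => c0) else Z3 r) φ M Q
    rw [← eR] at e1
    have c1 : ∀ T : List ℕ, 0 ∉ T → Bw T (fun r => if r = 0 then s'.map (fun i => 3 * i)
        else if r = 1 then L3 (fun _ => c0) else Z3 r) = Bw T Wb := by
      intro T hT
      refine Bw_congr (fun r hr => ?_)
      have : r ≠ 0 := fun h => hT (h ▸ hr)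
      simp only [hWb, if_neg this]
    rw [c1 T1 h0T.1, c1 T2 h0T.2] at e1
    exact e1
  have eY : (Wb 0).flatMap φ = s.flatMap (fun i => φ (3 * i)) := by
    simp only [hWb, if_true, List.flatMap_map]
  have eY' : (s'.map (fun i => 3 * i)).flatMap φ = s'.flatMap (fun i => φ (3 * i)) := by
    rw [List.flatMap_map]
  rw [← eR] at eN
  by_cases hK : ∃ i i', i < i' ∧ i' < 4 ∧ φ (3 * i) ≠ [] ∧ φ (3 * i') ≠ []
  swap
  · -- at most one nonempty image
    have h1 : ∃ i0 < 4, ∀ i < 4, i ≠ i0 → φ (3 * i) = [] := by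
      by_contra hc
      apply hK
      have hex : ∃ i < 4, φ (3 * i) ≠ [] := by
        by_contra h2
        exact hc ⟨0, by omega, fun i hi _ => by
          by_contra h3
          exact h2 ⟨i, hi, h3⟩⟩
      obtain ⟨i, hi, h2⟩ := hex
      have hex2 : ∃ i' < 4, i' ≠ i ∧ φ (3 * i') ≠ [] := by
        by_contra h3
        exact hc ⟨i, hi, fun i' hi' hne => by
          by_contra h4
          exact h3 ⟨i', hi', hne, h4⟩⟩
      obtain ⟨i', hi', hne, h3⟩ := hex2
      rcases Nat.lt_or_gt_of_ne hne with h4 | h4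
      · exact ⟨i', i, h4, hi, h3, h2⟩
      · exact ⟨i, i', h4, hi', h2, h3⟩
    obtain ⟨i0, hi0, h1⟩ := h1
    have e : (s'.map (fun i => 3 * i)).flatMap φ = (Wb 0).flatMap φ := by
      rw [eY, eY', flatMap_single s (hs.nodup_iff.2 (by decide)) ((hsm i0).2 hi0)
        (fun i hi => h1 i ((hsm i).1 hi)), flatMap_single s' (hs'.nodup_iff.2 (by decide))
        ((hsm' i0).2 hi0) (fun i hi => h1 i ((hsm' i).1 hi))]
    refine ⟨t, ?_, Or.inl rfl⟩
    rw [eN', e, ← eN]
    exact hF'
  obtain ⟨i, i', hii, hi', hgi, hgi'⟩ := hK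
  obtain ⟨a1, ha1⟩ := List.exists_mem_of_ne_nil _ hgi
  obtain ⟨a2, ha2⟩ := List.exists_mem_of_ne_nil _ hgi'
  have memY : ∀ {d j : ℕ}, j < 4 → d ∈ φ (3 * j) → d ∈ (Wb 0).flatMap φ := fun {d j} hj hd => by
    rw [eY]
    exact List.mem_flatMap.2 ⟨j, (hsm j).2 hj, hd⟩
  have memL : ∀ {d j : ℕ}, j < 4 → d ∈ φ (3 * j) → d ∈ (Wb 1).flatMap φ := fun {d j} hj hd =>
    List.mem_flatMap.2 ⟨3 * j, (W1 _).2 (Or.inl ⟨j, hj, rfl⟩), hd⟩
  have YL : ∀ {d}, d ∈ (Wb 0).flatMap φ → d ∈ (Wb 1).flatMap φ := fun {d} hd => by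
    rw [eY] at hd
    obtain ⟨j, hj, hd⟩ := List.mem_flatMap.1 hd
    exact memL ((hsm j).1 hj) hd
  have ha1Y := memY (by omega) ha1
  have lenY : 2 ≤ ((Wb 0).flatMap φ).length := by
    have h1 : ((Wb 0).flatMap φ).Perm ([0, 1, 2, 3].flatMap (fun i => φ (3 * i))) := by
      rw [eY]
      exact hs.flatMap_right _
    rw [h1.length_eq]
    have h2 : 1 ≤ (φ (3 * i)).length := List.length_pos_iff.2 hgi
    have h3 : 1 ≤ (φ (3 * i')).length := List.length_pos_iff.2 hgi'
    simp only [List.flatMap_cons, List.flatMap_nil, List.length_append, List.length_nil]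
    have hi4 : i < 4 := by omega
    interval_cases i' <;> interval_cases i <;> omega
  have hYne : (Wb 0).flatMap φ ≠ [] := List.ne_nil_of_mem ha1Y
  have hLne : (Wb 1).flatMap φ ≠ [] := List.ne_nil_of_mem (YL ha1Y)
  rw [eN] at hN
  obtain ⟨S1, ρY, S2, a, c, g1, g2, g3, g4⟩ := hFac R B _ _ _ P0 (sf 0 ((hRm 0).2 (by omega))) hYne
    hN.symm
  have hρYR : ρY ∈ R := by rw [g1]; simp
  have locY : Loc R B Wb φ M 0 ρY := ⟨T1, T2, S1, S2, a, c, eR, g1, g2, g3⟩
  obtain ⟨ρL, hρLR, locL⟩ := hloc 1 ((hRm 1).2 (by omega)) hLne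
  have hne : ρY ≠ ρL := fun h => by
    subst h
    exact locY.ne locL (by omega) hRn (P2 _ hρYR) ha1Y (YL ha1Y)
  have infY : (Wb 0).flatMap φ <:+: B ρY := ⟨a, c, by rw [g2, List.append_assoc]⟩
  have infL : (Wb 1).flatMap φ <:+: B ρL := by
    obtain ⟨_, _, _, _, a', c', _, _, e, _⟩ := locL
    exact ⟨a', c', by rw [e, List.append_assoc]⟩
  have hY1 : ρY ≠ 1 := by
    intro h1
    have hch := chain_inf P3 (h1 ▸ infY)
    obtain ⟨u, Y1, e1⟩ := List.exists_cons_of_ne_nil hYne
    rw [e1] at lenY hch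
    have hY1ne : Y1 ≠ [] := by
      intro h2
      rw [h2] at lenY
      simp at lenY
    obtain ⟨v, Y2, e2⟩ := List.exists_cons_of_ne_nil hY1ne
    rw [e2, List.isChain_cons_cons] at hch
    have hu := P1 ρL hρLR (by omega) u (infL.subset (YL (by rw [e1]; simp)))
    have hv := P1 ρL hρLR (by omega) v (infL.subset (YL (by rw [e1, e2]; simp)))
    exact hch.1 (hu.trans hv.symm)
  have hL1 : ρL = 1 := by
    by_contra h1
    have hu := P1 ρL hρLR h1 a1 (infL.subset (YL ha1Y))
    have hv := P1 ρY hρYR hY1 a1 (infY.subset ha1Y)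
    omega
  subst hL1
  -- the new word
  set Y' := (s'.map (fun i => 3 * i)).flatMap φ with hY'
  have hperm : Y'.Perm ((Wb 0).flatMap φ) := by
    rw [eY', eY]
    exact (hs'.trans hs.symm).flatMap_right _
  have hρS : ρY ∉ S1 ∧ ρY ∉ S2 := by
    rw [g1, List.nodup_append, List.nodup_cons] at hRn
    exact ⟨fun h => hRn.2.2 ρY h ρY (by simp) rfl, hRn.2.1.1⟩
  have hnew : M ++ ((Fw R s' c0).flatMap φ ++ Q) =
      Bw R (Function.update B ρY (a ++ (Y' ++ c))) := by
    rw [eN', g3, g4, g1, Bw_append, Bw_cons, Function.update_self]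
    have c1 : ∀ T : List ℕ, ρY ∉ T → Bw T (Function.update B ρY (a ++ (Y' ++ c))) = Bw T B := by
      intro T hT
      refine Bw_congr (fun r hr => ?_)
      rw [Function.update_of_ne (fun h : r = ρY => hT (h ▸ hr))]
    rw [c1 S1 hρS.1, c1 S2 hρS.2]
    simp only [List.append_assoc]
  by_cases hY0 : ρY = 0
  swap
  · -- a place block is rearranged
    refine ⟨t, ⟨ht, h, Function.update B ρY (a ++ (Y' ++ c)), hGh, ?_, ?_, ?_, hnew⟩, Or.inl rfl⟩
    · rw [Function.update_of_ne (Ne.symm hY0)]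
      exact hB0
    · rw [Function.update_of_ne (Ne.symm hY1)]
      exact hB1
    · intro r hr h2
      by_cases hr1 : r = ρY
      · subst hr1
        rw [Function.update_self]
        refine List.Perm.trans ?_ (hBr r hr h2)
        rw [g2]
        exact (hperm.append_right c).append_left a
      · rw [Function.update_of_ne hr1]
        exact hBr r hr h2
  -- main case
  subst hY0
  have hY3 : ∀ d ∈ (Wb 0).flatMap φ, ∃ a < 4, d = 3 * a := fun d hd => mB0 d (infY.subset hd)
  have hgx : ∀ j < 4, ∀ d ∈ φ (3 * j), ∃ a < 4, d = 3 * a := fun j hj d hd => hY3 d (memY hj hd)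
  have infg : ∀ j < 4, φ (3 * j) <:+: B 1 := fun j hj =>
    (infix_flatMap ((W1 _).2 (Or.inl ⟨j, hj, rfl⟩))).trans infL
  have hlen : ∀ j < 4, (φ (3 * j)).length ≤ 1 := by
    intro j hj
    have hch := chain_inf P3 (infg j hj)
    by_contra hl
    match hφ : φ (3 * j), hl with
    | [], hl => simp at hl
    | [u], hl => simp at hl
    | u :: v :: l, _ =>
      rw [hφ, List.isChain_cons_cons] at hch
      obtain ⟨b1, -, e1⟩ := hgx j hj u (by rw [hφ]; simp)
      obtain ⟨b2, -, e2⟩ := hgx j hj v (by rw [hφ]; simp)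
      exact hch.1 (by rw [e1, e2, own_x, own_x])
  -- a complete copy of the chain
  have hcopy : ∃ k < 3, ∀ l < m, 3 * (3 * l + k) + 1 ∈ (Wb 1).flatMap φ := by
    obtain ⟨b1, hb1, e1⟩ := hgx i (by omega) a1 ha1
    obtain ⟨b2, hb2, e2⟩ := hgx i' hi' a2 ha2
    have hne12 : b1 ≠ b2 := by
      intro hb
      have hnd : ((Wb 0).flatMap φ).Nodup := (P2 0 hρYR).sublist infY.sublist
      rw [eY, List.nodup_flatMap] at hnd
      have : Std.Symm (Function.onFun List.Disjoint (fun i => φ (3 * i))) :=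
        ⟨fun a b h => List.Disjoint.symm h⟩
      have := hnd.2.forall (R := Function.onFun List.Disjoint (fun i => φ (3 * i)))
        ((hsm i).2 (by omega)) ((hsm i').2 hi') (by omega)
      exact this ha1 (by rw [e1, hb, ← e2]; exact ha2)
    rw [hB1] at infL
    have m1 := memL (show i < 4 by omega) ha1
    have m2 := memL hi' ha2
    rw [e1] at m1
    rw [e2] at m2
    rcases Nat.lt_or_gt_of_ne hne12 with hlt | hlt
    · refine ⟨b1, by omega, fun l hl => copy_L3 hhn infL hlt hb2 m1 m2 l ?_⟩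
      rw [(hhp b1 (by omega)).mem_iff, List.mem_range]
      exact hl
    · refine ⟨b2, by omega, fun l hl => copy_L3 hhn infL hlt hb1 m2 m1 l ?_⟩
      rw [(hhp b2 (by omega)).mem_iff, List.mem_range]
      exact hl
  obtain ⟨k0, hk0, hcopy⟩ := hcopy
  choose! ρ hρR hρ using hloc
  have hF2 : ∀ l < m, ∃ l' < m, (Wb (l' + 2)).flatMap φ ≠ [] ∧ ρ (l' + 2) = l + 2 := by
    intro l hl
    have hD := hcopy l hl
    obtain ⟨u, hu, hDu⟩ := List.mem_flatMap.1 hD
    rcases (W1 u).1 hu with ⟨b, hb, e⟩ | ⟨k', hk', l', hl', e⟩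
    · exfalso
      rw [e] at hDu
      obtain ⟨b', -, e'⟩ := hgx b hb _ hDu
      omega
    · have hr : l' + 2 ∈ R := (hRm _).2 (by omega)
      have hu2 : u ∈ Wb (l' + 2) :=
        (W2 _ (by omega) u).2 ⟨k', hk', by rw [e, Nat.add_sub_cancel]⟩
      have hD2 : 3 * (3 * l + k0) + 1 ∈ (Wb (l' + 2)).flatMap φ :=
        List.mem_flatMap.2 ⟨u, hu2, hDu⟩
      have hne2 : (Wb (l' + 2)).flatMap φ ≠ [] := List.ne_nil_of_mem hD2
      refine ⟨l', hl', hne2, ?_⟩
      have hl2 := hρ _ hr hne2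
      have hR2 := hρR _ hr hne2
      have hn1 : ρ (l' + 2) ≠ 1 := fun h1 => by
        rw [h1] at hl2
        exact hl2.ne locL (by omega) hRn (P2 1 hρLR) hD2 hD
      have hin : 3 * (3 * l + k0) + 1 ∈ B (ρ (l' + 2)) := by
        obtain ⟨_, _, _, _, a', c', _, _, e, _⟩ := hl2
        rw [e]
        simp only [List.mem_append]
        exact Or.inr (Or.inl hD2)
      rw [← P1 _ hR2 hn1 _ hin, own_z hk0]
  choose! g hg1 hg2 hg3 using hF2
  have hsurj : ∀ l' < m, ∃ l < m, g l = l' := by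
    have himg : (Finset.range m).image g = Finset.range m := by
      apply Finset.eq_of_subset_of_card_le
      · intro x hx
        obtain ⟨l, hl, rfl⟩ := Finset.mem_image.1 hx
        exact Finset.mem_range.2 (hg1 l (Finset.mem_range.1 hl))
      · rw [Finset.card_image_of_injOn]
        intro x hx y hy hxy
        have hx' : x < m := Finset.mem_range.1 hx
        have hy' : y < m := Finset.mem_range.1 hy
        have e1 := hg3 x hx'
        have e2 := hg3 y hy'
        rw [hxy] at e1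
        omega
    intro l' hl'
    have := Finset.mem_range.2 hl'
    rw [← himg] at this
    obtain ⟨l, hl, e⟩ := Finset.mem_image.1 this
    exact ⟨l, Finset.mem_range.1 hl, e⟩
  have hgz : ∀ k' < 3, ∀ l' < m, ∀ d ∈ φ (3 * (3 * l' + k') + 1), d % 3 ≠ 0 := by
    intro k' hk' l' hl' d hd
    obtain ⟨l, hl, e⟩ := hsurj l' hl'
    have hr : l' + 2 ∈ R := (hRm _).2 (by omega)
    have hne2 := hg2 l hl
    have hρ2 := hg3 l hl
    rw [e] at hne2 hρ2
    have hl2 := hρ _ hr hne2
    rw [hρ2] at hl2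
    have hd2 : d ∈ (Wb (l' + 2)).flatMap φ :=
      List.mem_flatMap.2 ⟨3 * (3 * l' + k') + 1, (W2 _ (by omega) _).2 ⟨k', hk', by
        rw [Nat.add_sub_cancel]⟩, hd⟩
    have hin : d ∈ B (l + 2) := by
      obtain ⟨_, _, _, _, a', c', _, _, e, _⟩ := hl2
      rw [e]
      simp only [List.mem_append]
      exact Or.inr (Or.inl hd2)
    obtain ⟨k, hk, e3⟩ := mBr (l + 2) ((hRm _).2 (by omega)) (by omega) d hin
    omega
  -- the local letters of the main block
  have hinf : φ 0 ++ (φ 3 ++ (φ 6 ++ φ 9)) <:+: [0, 3, 6, 9] := by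
    have h1 := infL.filter (fun d => decide (d % 3 = 0))
    rw [hB1, filter_L3] at h1
    have fx : ∀ j < 4, (φ (3 * j)).filter (fun d => decide (d % 3 = 0)) = φ (3 * j) := by
      intro j hj
      rw [List.filter_eq_self]
      intro d hd
      obtain ⟨b, -, e⟩ := hgx j hj d hd
      rw [decide_eq_true_eq]
      omega
    have fz : ∀ k < 3, ((zs (c0.map (fun i => 3 * i + k))).flatMap φ).filter
        (fun d => decide (d % 3 = 0)) = [] := by
      intro k hk
      rw [List.filter_eq_nil_iff]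
      intro d hd
      rw [List.mem_flatMap] at hd
      obtain ⟨u, hu, hd⟩ := hd
      unfold zs at hu
      rw [List.map_map, List.mem_map] at hu
      obtain ⟨l, hl, rfl⟩ := hu
      rw [decide_eq_true_eq]
      exact hgz k hk l ((hcm l).1 hl) d hd
    have e2 : ((Wb 1).flatMap φ).filter (fun d => decide (d % 3 = 0)) =
        φ 0 ++ (φ 3 ++ (φ 6 ++ φ 9)) := by
      have e3 : Wb 1 = 0 :: (zs (c0.map (fun i => 3 * i + 0)) ++ 3 ::
          (zs (c0.map (fun i => 3 * i + 1)) ++ 6 ::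
            (zs (c0.map (fun i => 3 * i + 2)) ++ [9]))) := by
        simp only [hWb, Nat.one_ne_zero, if_false, if_true]
        rfl
      rw [e3]
      simp only [List.flatMap_cons, List.flatMap_append, List.flatMap_nil, List.append_nil,
        List.filter_append]
      rw [fz 0 (by omega), fz 1 (by omega), fz 2 (by omega)]
      have f0 : (φ 0).filter (fun d => decide (d % 3 = 0)) = φ 0 := fx 0 (by omega)
      have f1 : (φ 3).filter (fun d => decide (d % 3 = 0)) = φ 3 := fx 1 (by omega)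
      have f2 : (φ 6).filter (fun d => decide (d % 3 = 0)) = φ 6 := fx 2 (by omega)
      have f3 : (φ 9).filter (fun d => decide (d % 3 = 0)) = φ 9 := fx 3 (by omega)
      rw [f0, f1, f2, f3, List.nil_append, List.nil_append, List.nil_append]
    rwa [e2] at h1
  have hinf' : (φ (3 * 0)).map (fun d => d / 3) ++ (φ (3 * 1)).map (fun d => d / 3) ++
      (φ (3 * 2)).map (fun d => d / 3) ++ (φ (3 * 3)).map (fun d => d / 3) <:+: [0, 1, 2, 3] := by
    have h1 := hinf.map (fun d => d / 3)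
    simp only [List.map_append] at h1
    rw [List.append_assoc, List.append_assoc]
    exact h1
  have hty : t = a.map (fun d => d / 3) ++ s.flatMap (fun i => (φ (3 * i)).map (fun d => d / 3)) ++
      c.map (fun d => d / 3) := by
    have h1 := congrArg (List.map (fun d => d / 3)) (hB0.symm.trans g2)
    rw [eY, List.map_append, List.map_append, List.map_flatMap, List.map_map] at h1
    have h2 : List.map ((fun d => d / 3) ∘ fun i => 3 * i) t = t := by
      conv_rhs => rw [← List.map_id t]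
      apply List.map_congr_left
      intro d _
      simp only [Function.comp, id]
      omega
    rw [h2] at h1
    rw [h1, List.append_assoc]
  have hstep := fin_step hchk (fun i => (φ (3 * i)).map (fun d => d / 3))
    (fun j hj => by rw [List.length_map]; exact hlen j hj)
    (fun j hj b hb => by
      obtain ⟨d, hd, rfl⟩ := List.mem_map.1 hb
      obtain ⟨b', hb', e⟩ := hgx j hj d hd
      omega) hinf' ht hty (fun j hj => (hsm j).1 hj) (fun j hj => (hsm' j).1 hj)
  set t' := a.map (fun d => d / 3) ++ s'.flatMap (fun i => (φ (3 * i)).map (fun d => d / 3)) ++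
      c.map (fun d => d / 3) with ht'
  have hpt : t'.Perm t := by
    rw [hty, ht']
    exact (((hs'.trans hs.symm).flatMap_right _).append_left _).append_right _
  have m3 : ∀ d ∈ a ++ (Y' ++ c), d % 3 = 0 := by
    intro d hd
    have hd2 : d ∈ B 0 := by
      rw [g2]
      exact ((hperm.append_right c).append_left a).mem_iff.1 hd
    obtain ⟨b, -, e⟩ := mB0 d hd2
    omega
  have hnew0 : a ++ (Y' ++ c) = t'.map (fun i => 3 * i) := by
    rw [← map_div m3]
    congr 1
    rw [ht', List.map_append, List.map_append, eY', List.map_flatMap, List.append_assoc]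
  refine ⟨t', ⟨hpt.trans ht, h, Function.update B 0 (a ++ (Y' ++ c)), hGh, ?_, ?_, ?_, hnew⟩, ?_⟩
  · rw [Function.update_self, hnew0]
  · rw [Function.update_of_ne (by omega)]
    exact hB1
  · intro r hr h2
    rw [Function.update_of_ne (by omega)]
    exact hBr r hr h2
  · rcases hstep with h1 | h1
    · exact Or.inl h1.symm
    · exact Or.inr h1

end Pool.Agent.MVD.H47
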