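import Pool.Agent.MVD.StmtsLoc

set_option autoImplicit false

/-!
Squad MVD, row GFK (helper47): `GF` for more letters.
-/

namespace Pool.Agent.MVD.H47

open Pool.Agent.Helper14_MV Pool.Agent.Helper2_MV Pool.Agent.MVD

theorem rtr {β : FIC} {u v w : List ℕ} (h : RR β u v) (h' : RR β v w) : RR β u w := β.trans h h'

/-- `v` moves to the left over `d`, if it occurs before and after -/
theorem moveL {β : FIC} (hCtx : CtxStmt) (h2 : S2 β) (v : ℕ) : ∀ (d p q : List ℕ), v ∈ p → v ∈ q →
    (∀ c ∈ d, c ≠ v → 2 ≤ (p ++ (d ++ q)).count c) →
      RR β (p ++ (d ++ v :: q)) (p ++ v :: (d ++ q)) := by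
  intro d
  induction d with
  | nil =>
    intro p q _ _ _
    exact RR.refl _
  | cons c d ih =>
    intro p q hp hq hm
    have h1 := ih (p ++ [c]) q (List.mem_append_left _ hp) hq (by
      intro x hx hxv
      have h3 := hm x (List.mem_cons_of_mem _ hx) hxv
      have e : p ++ [c] ++ (d ++ q) = p ++ (c :: d ++ q) := by simp
      rw [e]
      exact h3)
    have e1 : p ++ [c] ++ (d ++ v :: q) = p ++ (c :: d ++ v :: q) := by simp
    have e2 : p ++ [c] ++ v :: (d ++ q) = p ++ c :: v :: (d ++ q) := by simp
    rw [e1, e2] at h1
    refine rtr h1 ?_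
    have e3 : p ++ v :: (c :: d ++ q) = p ++ v :: c :: (d ++ q) := by simp
    rw [e3]
    by_cases hc : c = v
    · rw [hc]
      exact RR.refl _
    · have h3 := hm c (List.mem_cons_self ..) hc
      by_cases hcp : c ∈ p
      · exact ((hCtx β).2.1 h2) p (d ++ q) c v hcp (List.mem_append_right _ hq)
      · have hcq : c ∈ d ++ q := by
          rw [List.count_append, List.count_eq_zero_of_not_mem hcp, List.cons_append,
            List.count_cons_self] at h3
          exact List.count_pos_iff.1 (by omega)
        exact (((hCtx β).2.1 h2) p (d ++ q) v c hp hcq).symm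

/-- **GFK** -/
theorem gfk (hCtx : CtxStmt) : GfkStmt := by
  intro β h2 n hG p d q v k hk
  induction k, hk using Nat.le_induction generalizing p with
  | base =>
    intro hd hv hm
    have e1 : List.replicate (3 - 1) v ++ q = v :: v :: q := rfl
    have e2 : List.replicate 3 v ++ (d ++ q) = v :: v :: v :: (d ++ q) := rfl
    rw [e1] at hm ⊢
    rw [e2]
    exact hG p d q v hd hv hm
  | succ k hk ih =>
    intro hd hv hm
    have e0 : k + 1 - 1 = k := rfl
    rw [e0] at hm ⊢
    have e1 : List.replicate k v = v :: List.replicate (k - 1) v := by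
      obtain ⟨j, rfl⟩ := Nat.exists_eq_succ_of_ne_zero (show k ≠ 0 by omega)
      rfl
    have e2 : List.replicate k v ++ q = v :: (List.replicate (k - 1) v ++ q) := by
      rw [e1]
      rfl
    have hvq : v ∈ List.replicate (k - 1) v ++ q := by
      apply List.mem_append_left
      rw [List.mem_replicate]
      exact ⟨by omega, rfl⟩
    -- the counts
    have hcnt : ∀ c ∈ d, 2 ≤ ((p ++ [v]) ++ v :: (d ++ (List.replicate (k - 1) v ++ q))).count c := by
      intro c hc
      have h3 := hm c hc
      rw [e2] at h3
      have hp : (p ++ v :: (d ++ v :: (List.replicate (k - 1) v ++ q))).Perm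
          ((p ++ [v]) ++ v :: (d ++ (List.replicate (k - 1) v ++ q))) := by
        rw [List.append_assoc]
        apply List.Perm.append_left
        apply List.Perm.cons
        exact List.perm_middle
      rw [hp.count_eq] at h3
      exact h3
    have h1 := moveL hCtx h2 v d (p ++ [v]) (List.replicate (k - 1) v ++ q)
      (List.mem_append_right _ (List.mem_singleton_self v)) hvq (by
        intro c hc hcv
        have h3 := hcnt c hc
        rw [List.count_append, List.count_cons_of_ne (fun h => hcv h.symm)] at h3
        rw [List.count_append]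
        exact h3)
    have h3 := ih (p ++ [v]) hd hv (fun c hc => hcnt c hc)
    have f1 : p ++ v :: (d ++ (List.replicate k v ++ q)) =
        p ++ [v] ++ (d ++ v :: (List.replicate (k - 1) v ++ q)) := by
      rw [e2]
      simp
    have f2 : p ++ (List.replicate (k + 1) v ++ (d ++ q)) =
        p ++ [v] ++ (List.replicate k v ++ (d ++ q)) := by
      rw [List.replicate_succ]
      simp
    rw [f1, f2]
    exact rtr h1 h3

end Pool.Agent.MVD.H47
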