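import Pool.Agent.MVD.StmtsLoc
import Pool.Agent.Helper47_MVD.GFK

set_option autoImplicit false

/-!
Squad MVD, row STC (helper47).
-/

namespace Pool.Agent.MVD.H47

open Pool.Agent.Helper14_MV Pool.Agent.Helper2_MV Pool.Agent.MVD

namespace StcRow

/-! ### places -/

/-- the places -/
def pl (P : List ℕ) : List ℕ := P.flatMap (fun i => [3 * i + 1, 3 * (i + 1) + 2])

theorem pl_append (P Q : List ℕ) : pl (P ++ Q) = pl P ++ pl Q := by
  unfold pl
  rw [List.flatMap_append]

theorem pl_cons (i : ℕ) (P : List ℕ) : pl (i :: P) = (3 * i + 1) :: (3 * (i + 1) + 2) :: pl P := by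
  unfold pl
  rw [List.flatMap_cons]
  rfl

theorem mem_pl {P : List ℕ} {c : ℕ} :
    c ∈ pl P ↔ ∃ i ∈ P, c = 3 * i + 1 ∨ c = 3 * (i + 1) + 2 := by
  unfold pl
  rw [List.mem_flatMap]
  simp only [List.mem_cons, List.not_mem_nil, or_false]

theorem count_pl {P : List ℕ} {i : ℕ} : (pl P).count (3 * i + 1) = P.count i := by
  induction P with
  | nil => rfl
  | cons j P ih =>
    rw [pl_cons, List.count_cons, List.count_cons, List.count_cons, ih]
    by_cases h : j = i
    · subst h
      simp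
      omega
    · have e1 : ((3 * j + 1 == 3 * i + 1) = true) = False := by
        simp only [beq_iff_eq, eq_iff_iff, iff_false]
        omega
      have e2 : ((3 * (j + 1) + 2 == 3 * i + 1) = true) = False := by
        simp only [beq_iff_eq, eq_iff_iff, iff_false]
        omega
      have e3 : ((j == i) = true) = False := by
        simp only [beq_iff_eq, eq_iff_iff, iff_false]
        exact h
      simp only [e1, e2, e3, if_false]

/-- the blocks of `Wm` -/
def blk (L : List ℕ) (r : ℕ) : List ℕ := if r = 0 then L else [3 * (r - 1) + 1]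

theorem blk_zero (L : List ℕ) : blk L 0 = L := rfl

theorem blk_succ (L : List ℕ) (i : ℕ) : blk L (i + 1) = [3 * i + 1] := by
  unfold blk
  rw [if_neg (by omega)]
  rfl

theorem Wm_def (P Q L : List ℕ) : Wm P Q L = Bw (lab P Q) (blk L) := rfl

theorem Bw_app (R1 R2 : List ℕ) (B : ℕ → List ℕ) :
    Bw (R1 ++ R2) B = Bw R1 B ++ Bw R2 B := by
  unfold Bw
  rw [List.flatMap_append]

theorem Bw_con (r : ℕ) (R : List ℕ) (B : ℕ → List ℕ) :
    Bw (r :: R) B = B r ++ (3 * r + 2) :: Bw R B := by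
  unfold Bw
  rw [List.flatMap_cons]
  simp

theorem Bw_cgr {R : List ℕ} {B B' : ℕ → List ℕ} (h : ∀ r ∈ R, B r = B' r) :
    Bw R B = Bw R B' := by
  unfold Bw
  exact List.flatMap_congr (fun r hr => by rw [h r hr])

theorem Bw_lab (P Q : List ℕ) (B : ℕ → List ℕ) :
    Bw (lab P Q) B = Bw (P.map (fun e => e + 1)) B ++
      (B 0 ++ 2 :: Bw (Q.map (fun e => e + 1)) B) := by
  unfold lab
  rw [Bw_app, Bw_con]

theorem Bw_pl (P L : List ℕ) : Bw (P.map (fun e => e + 1)) (blk L) = pl P := by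
  induction P with
  | nil => rfl
  | cons i P ih =>
    rw [List.map_cons, Bw_con, ih, pl_cons, blk_succ]
    rfl

theorem Wm_eq (P Q L : List ℕ) : Wm P Q L = pl P ++ (L ++ 2 :: pl Q) := by
  rw [Wm_def, Bw_lab, Bw_pl, Bw_pl, blk_zero]

theorem Wm_inj {P Q K L : List ℕ} (h : Wm P Q K = Wm P Q L) : K = L := by
  rw [Wm_eq, Wm_eq] at h
  exact List.append_cancel_right (List.append_cancel_left h)

theorem mem_lab {P Q : List ℕ} {r : ℕ} : r ∈ lab P Q ↔ r = 0 ∨ ∃ i ∈ P ++ Q, r = i + 1 := by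
  unfold lab
  rw [List.mem_append, List.mem_cons, List.mem_map, List.mem_map]
  constructor
  · rintro (⟨i, hi, h⟩ | h | ⟨i, hi, h⟩)
    · exact Or.inr ⟨i, List.mem_append_left _ hi, h.symm⟩
    · exact Or.inl h
    · exact Or.inr ⟨i, List.mem_append_right _ hi, h.symm⟩
  · rintro (h | ⟨i, hi, h⟩)
    · exact Or.inr (Or.inl h)
    · rcases List.mem_append.1 hi with hi | hi
      · exact Or.inl ⟨i, hi, h.symm⟩
      · exact Or.inr (Or.inr ⟨i, hi, h.symm⟩)

theorem nodup_lab {P Q : List ℕ} (h : (P ++ Q).Nodup) : (lab P Q).Nodup := by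
  unfold lab
  rw [List.nodup_middle, ← List.map_append, List.nodup_cons]
  constructor
  · intro h1
    obtain ⟨i, _, h2⟩ := List.mem_map.1 h1
    omega
  · exact h.map (fun i j hij => by
      have : i + 1 = j + 1 := hij
      omega)

/-! ### substitutions -/

/-- the places are renamed by `σ`, the letter `3` becomes `t` -/
def ph (σ : ℕ → Option ℕ) (t : List ℕ) (c : ℕ) : List ℕ :=
  if c % 3 = 1 then (σ (c / 3)).toList.map (fun j => 3 * j + 1)
  else if c % 3 = 2 then
    (if c = 2 then [2] else (σ (c / 3 - 1)).toList.map (fun j => 3 * (j + 1) + 2))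
  else if c = 3 then t else [c]

theorem ph_place (σ : ℕ → Option ℕ) (t : List ℕ) (i : ℕ) :
    ph σ t (3 * i + 1) = (σ i).toList.map (fun j => 3 * j + 1) := by
  unfold ph
  rw [if_pos (by omega)]
  have e : (3 * i + 1) / 3 = i := by omega
  rw [e]

theorem ph_sep (σ : ℕ → Option ℕ) (t : List ℕ) (i : ℕ) :
    ph σ t (3 * (i + 1) + 2) = (σ i).toList.map (fun j => 3 * (j + 1) + 2) := by
  unfold ph
  rw [if_neg (by omega), if_pos (by omega), if_neg (by omega)]
  have e : (3 * (i + 1) + 2) / 3 - 1 = i := by omega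
  rw [e]

theorem ph_two (σ : ℕ → Option ℕ) (t : List ℕ) : ph σ t 2 = [2] := rfl

theorem ph_three (σ : ℕ → Option ℕ) (t : List ℕ) : ph σ t 3 = t := rfl

theorem ph_loc (σ : ℕ → Option ℕ) (t : List ℕ) {c : ℕ} (h : c % 3 = 0) (h3 : c ≠ 3) :
    ph σ t c = [c] := by
  unfold ph
  rw [if_neg (by omega), if_neg (by omega), if_neg h3]

theorem pl_ph (σ : ℕ → Option ℕ) (t : List ℕ) (P : List ℕ) :
    (pl P).flatMap (ph σ t) = pl (P.filterMap σ) := by
  induction P with
  | nil => rfl
  | cons i P ih =>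
    rw [pl_cons, List.flatMap_cons, List.flatMap_cons, ih, ph_place, ph_sep]
    cases h : σ i with
    | none =>
      rw [List.filterMap_cons_none h]
      rfl
    | some j =>
      rw [List.filterMap_cons_some h, pl_cons]
      rfl

theorem Wm_ph (σ : ℕ → Option ℕ) (t P Q L : List ℕ) :
    (Wm P Q L).flatMap (ph σ t) =
      Wm (P.filterMap σ) (Q.filterMap σ) (L.flatMap (ph σ t)) := by
  rw [Wm_eq, Wm_eq, List.flatMap_append, List.flatMap_append, List.flatMap_cons, pl_ph, pl_ph,
    ph_two]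
  rfl

theorem fm_id {σ : ℕ → Option ℕ} {l : List ℕ} (h : ∀ i ∈ l, σ i = some i) :
    l.filterMap σ = l := by
  induction l with
  | nil => rfl
  | cons i l ih =>
    rw [List.filterMap_cons_some (h i (List.mem_cons_self ..)),
      ih (fun j hj => h j (List.mem_cons_of_mem _ hj))]

theorem fl_id {φ : ℕ → List ℕ} {l : List ℕ} (h : ∀ c ∈ l, φ c = [c]) : l.flatMap φ = l := by
  induction l with
  | nil => rfl
  | cons i l ih =>
    rw [List.flatMap_cons, h i (List.mem_cons_self ..),
      ih (fun j hj => h j (List.mem_cons_of_mem _ hj))]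
    rfl

/-- the letters which are mapped to `0` -/
theorem zero_ph {σ : ℕ → Option ℕ} {c : ℕ} (hc : c ≠ 0) (h : 0 ∈ ph σ [0] c) : c = 3 := by
  unfold ph at h
  split_ifs at h with h1 h2 h3 h4
  · obtain ⟨j, _, hj⟩ := List.mem_map.1 h
    omega
  · simp at h
  · obtain ⟨j, _, hj⟩ := List.mem_map.1 h
    omega
  · exact h4
  · have := List.mem_singleton.1 h
    omega

/-- the images are letters or empty -/
theorem ph_len (σ : ℕ → Option ℕ) (c : ℕ) : ph σ [0] c = [] ∨ ∃ x, ph σ [0] c = [x] := by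
  unfold ph
  split_ifs with h1 h2 h3 h4
  · cases σ (c / 3) with
    | none => exact Or.inl rfl
    | some j => exact Or.inr ⟨_, rfl⟩
  · exact Or.inr ⟨_, rfl⟩
  · cases σ (c / 3 - 1) with
    | none => exact Or.inl rfl
    | some j => exact Or.inr ⟨_, rfl⟩
  · exact Or.inr ⟨_, rfl⟩
  · exact Or.inr ⟨_, rfl⟩

theorem flat_cons {σ : ℕ → Option ℕ} {T : List ℕ} : ∀ {K : List ℕ}, 0 ∉ K →
    K.flatMap (ph σ [0]) = 0 :: T →
      ∃ K1 K2, K = K1 ++ 3 :: K2 ∧ K1.flatMap (ph σ [0]) = [] ∧ K2.flatMap (ph σ [0]) = T := by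
  intro K
  induction K with
  | nil =>
    intro _ h
    simp at h
  | cons x K ih =>
    intro h0 h
    rw [List.flatMap_cons] at h
    have hx : x ≠ 0 := fun hx => h0 (by rw [hx]; exact List.mem_cons_self ..)
    rcases ph_len σ x with h1 | ⟨y, h1⟩
    · rw [h1, List.nil_append] at h
      obtain ⟨K1, K2, h2, h3, h4⟩ := ih (fun h2 => h0 (List.mem_cons_of_mem _ h2)) h
      refine ⟨x :: K1, K2, by rw [h2]; rfl, ?_, h4⟩
      rw [List.flatMap_cons, h1, h3]
      rfl
    · rw [h1] at h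
      have h2 : y = 0 ∧ K.flatMap (ph σ [0]) = T := by
        simpa using h
      have h3 : x = 3 := zero_ph hx (by rw [h1, h2.1]; exact List.mem_singleton_self 0)
      exact ⟨[], K, by rw [h3]; rfl, rfl, h2.2⟩

theorem flat_concat {σ : ℕ → Option ℕ} {T : List ℕ} : ∀ {K : List ℕ}, 0 ∉ K →
    K.flatMap (ph σ [0]) = T ++ [0] →
      ∃ K1 K2, K = K1 ++ 3 :: K2 ∧ K1.flatMap (ph σ [0]) = T ∧ K2.flatMap (ph σ [0]) = [] := by
  intro K
  induction K using List.reverseRecOn with
  | nil =>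
    intro _ h
    simp at h
  | append_singleton K x ih =>
    intro h0 h
    rw [List.flatMap_append, List.flatMap_cons, List.flatMap_nil, List.append_nil] at h
    have hx : x ≠ 0 := fun hx => h0 (by rw [hx]; simp)
    rcases ph_len σ x with h1 | ⟨y, h1⟩
    · rw [h1, List.append_nil] at h
      obtain ⟨K1, K2, h2, h3, h4⟩ := ih (fun h2 => h0 (List.mem_append_left _ h2)) h
      refine ⟨K1, K2 ++ [x], by rw [h2]; simp, h3, ?_⟩
      rw [List.flatMap_append, h4, List.flatMap_cons, h1]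
      rfl
    · rw [h1] at h
      have h2 := List.append_inj' h rfl
      have h4 : y = 0 := by simpa using h2.2
      have h3 : x = 3 := zero_ph hx (by rw [h1, h4]; exact List.mem_singleton_self 0)
      exact ⟨K, [], by rw [h3], h2.1, rfl⟩

/-- the decomposition of a word whose image begins and ends with `0` -/
theorem deco {σ : ℕ → Option ℕ} {K G : List ℕ} (h0 : 0 ∉ K)
    (h : K.flatMap (ph σ [0]) = 0 :: (G ++ [0])) :
    ∃ K1 K2 K3, K = K1 ++ 3 :: (K2 ++ 3 :: K3) ∧ K1.flatMap (ph σ [0]) = [] ∧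
      K2.flatMap (ph σ [0]) = G ∧ K3.flatMap (ph σ [0]) = [] := by
  obtain ⟨K1, K', h1, h2, h3⟩ := flat_cons h0 h
  have h0' : 0 ∉ K' := fun h4 => h0 (by rw [h1]; simp [h4])
  obtain ⟨K2, K3, h4, h5, h6⟩ := flat_concat h0' h3
  exact ⟨K1, K2, K3, by rw [h1, h4], h2, h5, h6⟩

theorem count_ph {σ : ℕ → Option ℕ} : ∀ {K : List ℕ}, 0 ∉ K →
    (K.flatMap (ph σ [0])).count 0 = K.count 3 := by
  intro K
  induction K with
  | nil =>
    intro _
    rfl
  | cons x K ih =>
    intro h0
    have hx : x ≠ 0 := fun hx => h0 (by rw [hx]; exact List.mem_cons_self ..)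
    rw [List.flatMap_cons, List.count_append, ih (fun h => h0 (List.mem_cons_of_mem _ h)),
      List.count_cons]
    by_cases h3 : x = 3
    · rw [h3, ph_three]
      simp
      omega
    · have h4 : (ph σ [0] x).count 0 = 0 := List.count_eq_zero.2 (fun h => h3 (zero_ph hx h))
      rw [h4]
      simp [h3]

/-- between two letters `3` -/
theorem btw_lift {σ : ℕ → Option ℕ} {K G : List ℕ} {c c' : ℕ} (h0 : 0 ∉ K)
    (h : K.flatMap (ph σ [0]) = 0 :: (G ++ [0])) (hc : c' ∈ G)
    (only : ∀ x, c' ∈ ph σ [0] x → x = c) : Btw 3 c K := by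
  obtain ⟨K1, K2, K3, h1, _, h3, _⟩ := deco h0 h
  rw [← h3, List.mem_flatMap] at hc
  obtain ⟨x, hx, hx2⟩ := hc
  have h4 := only x hx2
  exact ⟨K1, K2, K3, h1, by rw [← h4]; exact hx⟩

/-! ### the shape -/

theorem shape (hSha : ShaStmt) {β : FIC} (hc : Hc β) {P Q L u : List ℕ} (hnd : (P ++ Q).Nodup)
    (hL1 : ∀ c ∈ L, c % 3 ≠ 2) (hL2 : ∀ i ∈ P ++ Q, L.count (3 * i + 1) = 1)
    (hL3 : ∀ c ∈ L, c % 3 = 1 → ∃ i ∈ P ++ Q, c = 3 * i + 1)
    (hL4 : ∀ c ∈ L, c % 3 = 0 → c = 3 ∨ L.count c = 2) (hr : RR β (Wm P Q L) u) :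
    ∃ (B : ℕ → List ℕ) (e0 : List ℕ), (∀ r, SFr (B r)) ∧ SFr e0 ∧ u = Bw (lab P Q) B ++ e0 ∧
      (∀ c, c ≠ 3 → e0.count c = 0) ∧
      (∀ c, c ≠ 3 → (B 0).count c = L.count c) ∧
      (∀ i ∈ P ++ Q, ∀ c, c ≠ 3 → (B (i + 1)).count c = if c = 3 * i + 1 then 1 else 0) := by
  have hsf : ∀ r ∈ lab P Q, SFr (blk L r) := by
    intro r hr
    rcases mem_lab.1 hr with h | ⟨i, _, h⟩
    · rw [h, blk_zero]
      exact hL1
    · rw [h, blk_succ]
      intro c hc
      rw [List.mem_singleton.1 hc]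
      omega
  obtain ⟨B, e0, s1, s2, hu, h0, h2, h3⟩ := hSha β hc.i2 hc.i3 hc.na (lab P Q) (blk L) u
    (nodup_lab hnd) hsf hr
  have m0 : 0 ∈ lab P Q := mem_lab.2 (Or.inl rfl)
  -- a letter which does not occur
  have key0 : ∀ c, c ∉ L → (∀ i ∈ P ++ Q, c ≠ 3 * i + 1) →
      (∀ r ∈ lab P Q, (B r).count c = 0) ∧ e0.count c = 0 := by
    intro c hcL hcp
    obtain ⟨h4, h5⟩ := h0 c (by
      intro r hr
      rcases mem_lab.1 hr with h | ⟨i, hi, h⟩
      · rw [h, blk_zero]
        exact hcL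
      · rw [h, blk_succ]
        intro h6
        exact hcp i hi (List.mem_singleton.1 h6))
    exact ⟨fun r hr => List.count_eq_zero.2 (h4 r hr), List.count_eq_zero.2 h5⟩
  -- the place letters
  have key1 : ∀ i ∈ P ++ Q, (∀ q ∈ lab P Q, (B q).count (3 * i + 1) =
      if q = 0 ∨ q = i + 1 then 1 else 0) ∧ e0.count (3 * i + 1) = 0 := by
    intro i hi
    apply h2 (3 * i + 1) 0 (i + 1) (by omega) m0 (mem_lab.2 (Or.inr ⟨i, hi, rfl⟩)) (by omega)
    intro q hq
    rcases mem_lab.1 hq with h | ⟨j, _, h⟩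
    · rw [h, blk_zero, if_pos (Or.inl rfl)]
      exact hL2 i hi
    · rw [h, blk_succ]
      by_cases hij : j = i
      · rw [hij, if_pos (Or.inr rfl)]
        simp
      · rw [if_neg (by omega)]
        apply List.count_eq_zero.2
        intro h4
        have := List.mem_singleton.1 h4
        omega
  -- the local letters
  have key2 : ∀ c ∈ L, c % 3 = 0 → c ≠ 3 → (∀ q ∈ lab P Q, (B q).count c =
      if q = 0 then 2 else 0) ∧ e0.count c = 0 := by
    intro c hcL hc0 hc3
    apply h3 c 0 (by omega) m0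
    intro q hq
    rcases mem_lab.1 hq with h | ⟨j, _, h⟩
    · rw [h, blk_zero, if_pos rfl]
      rcases hL4 c hcL hc0 with h4 | h4
      · exact absurd h4 hc3
      · exact h4
    · rw [h, blk_succ, if_neg (by omega)]
      apply List.count_eq_zero.2
      intro h4
      have := List.mem_singleton.1 h4
      omega
  -- all letters
  have key : ∀ c, c ≠ 3 → e0.count c = 0 ∧ (B 0).count c = L.count c ∧
      ∀ i ∈ P ++ Q, (B (i + 1)).count c = if c = 3 * i + 1 then 1 else 0 := by
    intro c hc3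
    by_cases hc2 : c % 3 = 2
    · refine ⟨List.count_eq_zero.2 (fun h => s2 c h hc2), ?_, ?_⟩
      · rw [List.count_eq_zero.2 (fun h => s1 0 c h hc2), List.count_eq_zero.2
          (fun h => hL1 c h hc2)]
      · intro i hi
        rw [List.count_eq_zero.2 (fun h => s1 (i + 1) c h hc2), if_neg (by omega)]
    by_cases hp : ∃ i ∈ P ++ Q, c = 3 * i + 1
    · obtain ⟨i, hi, rfl⟩ := hp
      obtain ⟨h4, h5⟩ := key1 i hi
      refine ⟨h5, ?_, ?_⟩
      · rw [h4 0 m0, if_pos (Or.inl rfl), hL2 i hi]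
      · intro j hj
        rw [h4 (j + 1) (mem_lab.2 (Or.inr ⟨j, hj, rfl⟩))]
        by_cases hij : i = j
        · rw [if_pos (Or.inr (by rw [hij])), if_pos (by rw [hij])]
        · rw [if_neg (by omega), if_neg (by omega)]
    have hp' : ∀ i ∈ P ++ Q, c ≠ 3 * i + 1 := fun i hi h => hp ⟨i, hi, h⟩
    by_cases hcL : c ∈ L
    · have hc0 : c % 3 = 0 := by
        by_contra h
        exact hp (hL3 c hcL (by omega))
      obtain ⟨h4, h5⟩ := key2 c hcL hc0 hc3
      refine ⟨h5, ?_, ?_⟩
      · rw [h4 0 m0, if_pos rfl]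
        rcases hL4 c hcL hc0 with h6 | h6
        · exact absurd h6 hc3
        · exact h6.symm
      · intro j hj
        rw [h4 (j + 1) (mem_lab.2 (Or.inr ⟨j, hj, rfl⟩)), if_neg (by omega),
          if_neg (hp' j hj)]
    · obtain ⟨h4, h5⟩ := key0 c hcL hp'
      refine ⟨h5, ?_, ?_⟩
      · rw [h4 0 m0, List.count_eq_zero.2 hcL]
      · intro j hj
        rw [h4 (j + 1) (mem_lab.2 (Or.inr ⟨j, hj, rfl⟩)), if_neg (hp' j hj)]
  exact ⟨B, e0, s1, s2, hu, fun c hc => (key c hc).1, fun c hc => (key c hc).2.1,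
    fun i hi c hc => (key c hc).2.2 i hi⟩

theorem nd_facts {P1 P2 Q1 Q2 : List ℕ} {a b f e z : ℕ}
    (h : ((P1 ++ a :: b :: f :: P2) ++ (Q1 ++ e :: z :: Q2)).Nodup) :
    (a ≠ b ∧ a ≠ f ∧ a ≠ e ∧ a ≠ z ∧ b ≠ f ∧ b ≠ e ∧ b ≠ z ∧ f ≠ e ∧ f ≠ z ∧ e ≠ z) ∧
    (∀ i ∈ P1 ++ (P2 ++ (Q1 ++ Q2)), i ≠ a ∧ i ≠ b ∧ i ≠ f ∧ i ≠ e ∧ i ≠ z) := by
  have hp : ((P1 ++ a :: b :: f :: P2) ++ (Q1 ++ e :: z :: Q2)).Perm
      (a :: b :: f :: e :: z :: (P1 ++ (P2 ++ (Q1 ++ Q2)))) := by
    rw [List.perm_iff_count]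
    intro c
    simp only [List.count_append, List.count_cons]
    omega
  rw [hp.nodup_iff] at h
  simp only [List.nodup_cons, List.mem_cons, not_or] at h
  obtain ⟨⟨h1, h2, h3, h4, h5⟩, ⟨h6, h7, h8, h9⟩, ⟨h10, h11, h12⟩, ⟨h13, h14⟩, h15, _⟩ := h
  refine ⟨⟨h1, h2, h3, h4, h6, h7, h8, h10, h11, h13⟩, ?_⟩
  intro i hi
  refine ⟨?_, ?_, ?_, ?_, ?_⟩ <;> · rintro rfl; contradiction

/-- the letters of a list with given counts -/
theorem eq_single {l : List ℕ} {x : ℕ} (h : ∀ c, l.count c = if c = x then 1 else 0) :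
    l = [x] := by
  have h1 : l.Perm [x] := by
    rw [List.perm_iff_count]
    intro c
    rw [h c]
    by_cases hc : c = x
    · rw [hc]
      simp
    · rw [if_neg hc, List.count_eq_zero.2 (fun h => hc (List.mem_singleton.1 h))]
  exact List.perm_singleton.1 h1

theorem eq_nil {l : List ℕ} (h : ∀ c, l.count c = 0) : l = [] := by
  cases l with
  | nil => rfl
  | cons x l =>
    have := h x
    rw [List.count_cons_self] at this
    omega

/-- `S3` and `S2` give `IA` -/
theorem not_s3 {β : FIC} (hCtx : CtxStmt) (h2 : S2 β) (hna : ¬ IA β) : ¬ S3 β := by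
  intro h3
  apply hna
  have e1 := ((hCtx β).2.1 h2) [0, 2] [3] 0 3 (by simp) (by simp)
  have e2 := ((hCtx β).2.2 h3) [0, 2, 3] [] 0 3 (by simp) (by simp)
  exact rtr e1 e2

/-! ### the words of the row -/

section Main

variable {β : FIC} {n : ℕ} {P1 P2 Q1 Q2 : List ℕ} {e f a b z : ℕ} {γ : List ℕ}

/-- the letters of `γ` -/
theorem can_cases {P Q γ : List ℕ} (h : Can P Q γ) {c : ℕ} (hc : c ∈ γ) :
    (∃ i ∈ P ++ Q, c = 3 * i + 1) ∨ (c % 3 = 0 ∧ 27 ≤ c ∧ γ.count c = 2) := by
  have h1 := h.sf c hc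
  by_cases h2 : c % 3 = 1
  · exact Or.inl (h.ps c hc h2)
  · have h3 : c % 3 = 0 := by omega
    obtain ⟨h4, h5⟩ := h.lc c hc h3
    exact Or.inr ⟨h3, h5, h4⟩

/-- `γ` is fixed by the substitutions which fix its places -/
theorem can_fix {P Q γ l : List ℕ} (h : Can P Q γ) (hl : ∀ c ∈ l, c ∈ γ) (σ : ℕ → Option ℕ)
    (t : List ℕ) (hσ : ∀ i ∈ P ++ Q, 3 * i + 1 ∈ l → σ i = some i) :
    l.flatMap (ph σ t) = l := by
  apply fl_id
  intro c hc
  rcases can_cases h (hl c hc) with ⟨i, hi, h1⟩ | ⟨h1, h2, _⟩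
  · rw [h1, ph_place, hσ i hi (by rw [← h1]; exact hc)]
    rfl
  · exact ph_loc σ t h1 (by omega)

theorem can_count0 {P Q γ : List ℕ} (h : Can P Q γ) {c : ℕ} (hc : c < 27)
    (hp : ∀ i ∈ P ++ Q, c ≠ 3 * i + 1) : γ.count c = 0 := by
  apply List.count_eq_zero.2
  intro h1
  rcases can_cases h h1 with ⟨i, hi, h2⟩ | ⟨_, h2, _⟩
  · exact hp i hi h2
  · omega

theorem can_place0 {P Q γ : List ℕ} (h : Can P Q γ) {i : ℕ} (hi : i ∉ P ++ Q) :
    γ.count (3 * i + 1) = 0 := by
  apply List.count_eq_zero.2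
  intro h1
  rcases can_cases h h1 with ⟨j, hj, h2⟩ | ⟨h2, _, _⟩
  · have : i = j := by omega
    exact hi (by rw [this]; exact hj)
  · omega

/-- the first step: the word `u` has the main block `K` -/
theorem stepA (hSha : ShaStmt) (hGhh : GhhStmt) (hG : GC β n P1 P2 Q1 Q2 e f a b z γ)
    {u : List ℕ} (hr : RR β (Wm (P1 ++ a :: b :: f :: P2) (Q1 ++ e :: z :: Q2)
      (3 :: (3 * z + 1) :: (γ ++ [3, 3, 3 * a + 1, 3 * b + 1]))) u) :
    ∃ (K G : List ℕ), K.Perm (3 :: (3 * z + 1) :: (γ ++ [3, 3, 3 * a + 1, 3 * b + 1])) ∧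
      u = Wm (P1 ++ a :: b :: f :: P2) (Q1 ++ e :: z :: Q2) K ∧
      K.flatMap (ph (fun i => if i = a ∨ i = b ∨ i = z then none else some i) [0]) =
        0 :: (G ++ [0]) ∧ G.Perm (0 :: γ) := by
  obtain ⟨⟨n1, n2, n3, n4, n5, n6, n7, n8, n9, n10⟩, nP⟩ := nd_facts hG.nd
  have hcan := hG.nf.can
  obtain ⟨σ, hσ⟩ : ∃ σ : ℕ → Option ℕ,
    σ = fun i => if i = a ∨ i = b ∨ i = z then none else some i := ⟨_, rfl⟩
  rw [← hσ]
  have hσ1 : ∀ i, i ≠ a → i ≠ b → i ≠ z → σ i = some i := by
    intro i h1 h2 h3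
    rw [hσ]
    simp only [h1, h2, h3, or_self, if_false]
  have hσa : σ a = none := by
    rw [hσ]
    simp
  have hσb : σ b = none := by
    rw [hσ]
    simp
  have hσz : σ z = none := by
    rw [hσ]
    simp
  obtain ⟨L, hLd⟩ : ∃ L : List ℕ, L = 3 :: (3 * z + 1) :: (γ ++ [3, 3, 3 * a + 1, 3 * b + 1]) :=
    ⟨_, rfl⟩
  rw [← hLd] at hr ⊢
  -- membership in the old places
  have hz0 : z ∉ (P1 ++ f :: P2) ++ (Q1 ++ e :: Q2) := by
    intro h
    simp only [List.mem_append, List.mem_cons] at h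
    rcases h with (h | h | h) | (h | h | h)
    · exact (nP z (by simp [h])).2.2.2.2 rfl
    · exact n9 h.symm
    · exact (nP z (by simp [h])).2.2.2.2 rfl
    · exact (nP z (by simp [h])).2.2.2.2 rfl
    · exact n10 h.symm
    · exact (nP z (by simp [h])).2.2.2.2 rfl
  have ha0 : a ∉ (P1 ++ f :: P2) ++ (Q1 ++ e :: Q2) := by
    intro h
    simp only [List.mem_append, List.mem_cons] at h
    rcases h with (h | h | h) | (h | h | h)
    · exact (nP a (by simp [h])).1 rfl
    · exact n2 h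
    · exact (nP a (by simp [h])).1 rfl
    · exact (nP a (by simp [h])).1 rfl
    · exact n3 h
    · exact (nP a (by simp [h])).1 rfl
  have hb0 : b ∉ (P1 ++ f :: P2) ++ (Q1 ++ e :: Q2) := by
    intro h
    simp only [List.mem_append, List.mem_cons] at h
    rcases h with (h | h | h) | (h | h | h)
    · exact (nP b (by simp [h])).2.1 rfl
    · exact n5 h
    · exact (nP b (by simp [h])).2.1 rfl
    · exact (nP b (by simp [h])).2.1 rfl
    · exact n6 h
    · exact (nP b (by simp [h])).2.1 rfl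
  have hza := can_place0 hcan hz0
  have haa := can_place0 hcan ha0
  have hba := can_place0 hcan hb0
  have hcl : ∀ c, L.count c = (if c = 3 then 3 else 0) + (if c = 3 * z + 1 then 1 else 0) +
      γ.count c + (if c = 3 * a + 1 then 1 else 0) + (if c = 3 * b + 1 then 1 else 0) := by
    intro c
    rw [hLd]
    simp only [List.count_cons, List.count_append, List.count_nil, beq_iff_eq,
      @eq_comm ℕ 3 c, @eq_comm ℕ (3 * z + 1) c, @eq_comm ℕ (3 * a + 1) c,
      @eq_comm ℕ (3 * b + 1) c]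
    split_ifs <;> omega
  have hmP : ∀ i, i ∈ (P1 ++ a :: b :: f :: P2) ++ (Q1 ++ e :: z :: Q2) ↔
      i = a ∨ i = b ∨ i = z ∨ i ∈ (P1 ++ f :: P2) ++ (Q1 ++ e :: Q2) := by
    intro i
    simp only [List.mem_append, List.mem_cons]
    tauto
  have h3γ : γ.count 3 = 0 := can_count0 hcan (by omega) (fun i _ => by omega)
  have h0γ : γ.count 0 = 0 := can_count0 hcan (by omega) (fun i _ => by omega)
  have hLmem : ∀ c ∈ L, c = 3 ∨ c = 3 * z + 1 ∨ c ∈ γ ∨ c = 3 * a + 1 ∨ c = 3 * b + 1 := by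
    intro c hc
    rw [hLd] at hc
    simp only [List.mem_cons, List.mem_append, List.not_mem_nil, or_false] at hc
    tauto
  obtain ⟨B, e0, s1, s2, hu, k1, k2, k3⟩ := shape hSha hG.nf.hc hG.nd
    (by
      intro c hc
      rcases hLmem c hc with h | h | h | h | h
      · omega
      · omega
      · exact hcan.sf c h
      · omega
      · omega)
    (by
      intro i hi
      rw [hcl]
      rcases (hmP i).1 hi with h | h | h | h
      · rw [h, if_neg (by omega), if_neg (by omega), haa, if_pos rfl, if_neg (by omega)]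
      · rw [h, if_neg (by omega), if_neg (by omega), hba, if_neg (by omega), if_pos rfl]
      · rw [h, if_neg (by omega), if_pos rfl, hza, if_neg (by omega), if_neg (by omega)]
      · rw [hcan.pl i h, if_neg (by omega), if_neg (fun h4 => hz0 (by
          have : i = z := by omega
          rw [← this]; exact h)), if_neg (fun h4 => ha0 (by
          have : i = a := by omega
          rw [← this]; exact h)), if_neg (fun h4 => hb0 (by
          have : i = b := by omega
          rw [← this]; exact h))])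
    (by
      intro c hc hc1
      rcases hLmem c hc with h | h | h | h | h
      · omega
      · exact ⟨z, (hmP z).2 (by simp), h⟩
      · obtain ⟨i, hi, h4⟩ := hcan.ps c h hc1
        exact ⟨i, (hmP i).2 (by simp only [hi, or_true]), h4⟩
      · exact ⟨a, (hmP a).2 (by simp), h⟩
      · exact ⟨b, (hmP b).2 (by simp), h⟩)
    (by
      intro c hc hc0
      rcases hLmem c hc with h | h | h | h | h
      · exact Or.inl h
      · omega
      · right
        obtain ⟨h9, h10⟩ := hcan.lc c h hc0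
        rw [hcl, h9, if_neg (by omega), if_neg (by omega), if_neg (by omega), if_neg (by omega)]
      · omega
      · omega) hr
  -- the image
  have hP : (P1 ++ a :: b :: f :: P2).filterMap σ = P1 ++ f :: P2 := by
    rw [List.filterMap_append, List.filterMap_cons_none hσa, List.filterMap_cons_none hσb,
      List.filterMap_cons_some (hσ1 f n2.symm n5.symm n9), fm_id (l := P1), fm_id (l := P2)]
    · intro i hi
      obtain ⟨h1, h2, _, _, h5⟩ := nP i (by simp [hi])
      exact hσ1 i h1 h2 h5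
    · intro i hi
      obtain ⟨h1, h2, _, _, h5⟩ := nP i (by simp [hi])
      exact hσ1 i h1 h2 h5
  have hQ : (Q1 ++ e :: z :: Q2).filterMap σ = Q1 ++ e :: Q2 := by
    rw [List.filterMap_append, List.filterMap_cons_some (hσ1 e n3.symm n6.symm n10),
      List.filterMap_cons_none hσz, fm_id (l := Q1), fm_id (l := Q2)]
    · intro i hi
      obtain ⟨h1, h2, _, _, h5⟩ := nP i (by simp [hi])
      exact hσ1 i h1 h2 h5
    · intro i hi
      obtain ⟨h1, h2, _, _, h5⟩ := nP i (by simp [hi])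
      exact hσ1 i h1 h2 h5
  have hγ : γ.flatMap (ph σ [0]) = γ := by
    apply can_fix hcan (fun c hc => hc)
    intro i hi _
    apply hσ1
    · intro h; exact ha0 (by rw [← h]; exact hi)
    · intro h; exact hb0 (by rw [← h]; exact hi)
    · intro h; exact hz0 (by rw [← h]; exact hi)
  have hL : L.flatMap (ph σ [0]) = 0 :: (γ ++ [0, 0]) := by
    rw [hLd]
    simp only [List.flatMap_cons, List.flatMap_append, List.flatMap_nil, ph_place, ph_three,
      hσz, hσa, hσb, hγ]
    simp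
  have h4 := hr.sub (ph σ [0])
  rw [Wm_ph, hP, hQ, hL] at h4
  obtain ⟨G, hG1, hG2⟩ := hGhh β n _ _ γ hG.nf _ h4
  -- the blocks
  have hG0 : SFr (0 :: (G ++ [0])) := by
    intro c hc
    rw [List.mem_cons, List.mem_append, List.mem_singleton] at hc
    rcases hc with h | h | h
    · omega
    · rcases List.mem_cons.1 (hG1.mem_iff.1 h) with h5 | h5
      · omega
      · exact hcan.sf c h5
    · omega
  obtain ⟨F0, l, hF⟩ : ∃ F0 l, f :: P2 = F0 ++ [l] := by
    rcases List.eq_nil_or_concat (f :: P2) with h | ⟨F0, l, h⟩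
    · simp at h
    · exact ⟨F0, l, by simpa using h⟩
  have hlm : l ∈ f :: P2 := by
    rw [hF]
    simp
  have hσl : σ l = some l := by
    rcases List.mem_cons.1 hlm with h | h
    · rw [h]
      exact hσ1 f n2.symm n5.symm n9
    · obtain ⟨h1, h2, _, _, h5⟩ := nP l (by simp [h])
      exact hσ1 l h1 h2 h5
  have hG3 : ((Bw ((P1 ++ a :: b :: f :: P2).map (fun e => e + 1)) B).flatMap (ph σ [0]) ++
      (B 0).flatMap (ph σ [0])) ++
        2 :: (Bw ((Q1 ++ e :: z :: Q2).map (fun e => e + 1)) B ++ e0).flatMap (ph σ [0]) =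
      (pl (P1 ++ f :: P2) ++ 0 :: (G ++ [0])) ++ 2 :: pl (Q1 ++ e :: Q2) := by
    rw [hu, Bw_lab, Wm_eq] at hG2
    have e7 : ∀ X Y Z T : List ℕ, (X ++ (Y ++ 2 :: Z) ++ T).flatMap (ph σ [0]) =
        (X.flatMap (ph σ [0]) ++ Y.flatMap (ph σ [0])) ++ 2 :: (Z ++ T).flatMap (ph σ [0]) := by
      intro X Y Z T
      simp only [List.flatMap_append, List.flatMap_cons, ph_two]
      simp
    rw [e7] at hG2
    rw [hG2]
    simp
  have h2a : (2 : ℕ) ∉ pl (P1 ++ f :: P2) ++ 0 :: (G ++ [0]) := by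
    rw [List.mem_append, mem_pl]
    rintro (⟨i, _, h | h⟩ | h)
    · omega
    · omega
    · exact hG0 2 h rfl
  have h2b : (2 : ℕ) ∉ pl (Q1 ++ e :: Q2) := by
    rw [mem_pl]
    rintro ⟨i, _, h | h⟩
    · omega
    · omega
  obtain ⟨h5, _, h6⟩ := (List.append_cons_inj_of_notMem h2a h2b).1 hG3.symm
  -- the right part
  have h3Q : 3 ∉ Bw ((Q1 ++ e :: z :: Q2).map (fun e => e + 1)) B ++ e0 := by
    intro h
    have h7 : (0 : ℕ) ∈ pl (Q1 ++ e :: Q2) := by
      rw [h6, List.mem_flatMap]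
      exact ⟨3, h, by rw [ph_three]; exact List.mem_singleton_self 0⟩
    rw [mem_pl] at h7
    obtain ⟨i, _, h8 | h8⟩ := h7 <;> omega
  -- the left part
  have hPl : P1 ++ f :: P2 = (P1 ++ F0) ++ [l] := by
    rw [hF, List.append_assoc]
  have hPl' : P1 ++ a :: b :: f :: P2 = (P1 ++ a :: b :: F0) ++ [l] := by
    rw [hF]
    simp
  have e5 : pl (P1 ++ f :: P2) ++ 0 :: (G ++ [0]) =
      (pl (P1 ++ F0) ++ [3 * l + 1]) ++ (3 * (l + 1) + 2) :: (0 :: (G ++ [0])) := by
    rw [hPl, pl_append, pl_cons]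
    simp [pl]
  have e6 : (Bw ((P1 ++ a :: b :: f :: P2).map (fun e => e + 1)) B).flatMap (ph σ [0]) ++
      (B 0).flatMap (ph σ [0]) =
      (Bw ((P1 ++ a :: b :: F0).map (fun e => e + 1)) B ++ B (l + 1)).flatMap (ph σ [0]) ++
        (3 * (l + 1) + 2) :: (B 0).flatMap (ph σ [0]) := by
    rw [hPl', List.map_append, Bw_app, List.map_singleton, Bw_con, List.flatMap_append,
      List.flatMap_append, List.flatMap_append, List.flatMap_cons, ph_sep, hσl]
    simp [Bw]
  rw [e5, e6] at h5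
  have hl1 : 3 * (l + 1) + 2 ∉ pl (P1 ++ F0) ++ [3 * l + 1] := by
    rw [List.mem_append, mem_pl, List.mem_singleton]
    rintro (⟨i, hi, h | h⟩ | h)
    · omega
    · have h7 : i = l := by omega
      have h8 := hcan.nd
      rw [hPl] at h8
      have h9 := (List.nodup_append.1 (List.nodup_append.1 h8).1).2.2 i hi l
        (List.mem_singleton_self l)
      exact h9 h7
    · omega
  have hl2 : 3 * (l + 1) + 2 ∉ 0 :: (G ++ [0]) := by
    intro h
    exact hG0 _ h (by omega)
  obtain ⟨h7, _, h8⟩ := (List.append_cons_inj_of_notMem hl1 hl2).1 h5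
  have h3P : 3 ∉ Bw ((P1 ++ a :: b :: F0).map (fun e => e + 1)) B ++ B (l + 1) := by
    intro h
    have h9 : (0 : ℕ) ∈ pl (P1 ++ F0) ++ [3 * l + 1] := by
      rw [h7, List.mem_flatMap]
      exact ⟨3, h, by rw [ph_three]; exact List.mem_singleton_self 0⟩
    rw [List.mem_append, mem_pl, List.mem_singleton] at h9
    rcases h9 with ⟨i, _, h10 | h10⟩ | h10 <;> omega
  -- no `3` in the place blocks
  have hmB : ∀ (R : List ℕ) (i : ℕ), i ∈ R → ∀ c ∈ B (i + 1),
      c ∈ Bw (R.map (fun e => e + 1)) B := by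
    intro R i hi c hc
    unfold Bw
    rw [List.mem_flatMap]
    exact ⟨i + 1, List.mem_map.2 ⟨i, hi, rfl⟩, List.mem_append_left _ hc⟩
  have h3B : ∀ i ∈ (P1 ++ a :: b :: f :: P2) ++ (Q1 ++ e :: z :: Q2), 3 ∉ B (i + 1) := by
    intro i hi h
    rcases List.mem_append.1 hi with hi | hi
    · rw [hPl'] at hi
      rcases List.mem_append.1 hi with hi | hi
      · exact h3P (List.mem_append_left _ (hmB _ i hi 3 h))
      · rw [List.mem_singleton.1 hi] at h
        exact h3P (List.mem_append_right _ h)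
    · exact h3Q (List.mem_append_left _ (hmB _ i hi 3 h))
  have hB1 : ∀ i ∈ (P1 ++ a :: b :: f :: P2) ++ (Q1 ++ e :: z :: Q2), B (i + 1) = [3 * i + 1] := by
    intro i hi
    apply eq_single
    intro c
    by_cases hc : c = 3
    · rw [hc, List.count_eq_zero.2 (h3B i hi), if_neg (by omega)]
    · exact k3 i hi c hc
  have he0 : e0 = [] := by
    apply eq_nil
    intro c
    by_cases hc : c = 3
    · rw [hc]
      exact List.count_eq_zero.2 (fun h => h3Q (List.mem_append_right _ h))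
    · exact k1 c hc
  have hu2 : u = Wm (P1 ++ a :: b :: f :: P2) (Q1 ++ e :: z :: Q2) (B 0) := by
    rw [hu, he0, List.append_nil, Wm_def]
    apply Bw_cgr
    intro r hr
    rcases mem_lab.1 hr with h | ⟨i, hi, h⟩
    · rw [h, blk_zero]
    · rw [h, blk_succ, hB1 i hi]
  refine ⟨B 0, G, ?_, hu2, h8.symm, hG1⟩
  rw [List.perm_iff_count]
  intro c
  by_cases hc : c = 3
  · have h9 : 0 ∉ B 0 := by
      intro h
      have h10 := k2 0 (by omega)
      rw [hcl 0, h0γ, if_neg (by omega), if_neg (by omega), if_neg (by omega),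
        if_neg (by omega)] at h10
      exact absurd h10 (by have := List.count_pos_iff.2 h; omega)
    have h10 := count_ph (σ := σ) h9
    rw [← h8, List.count_cons_self, List.count_append, hG1.count_eq, List.count_cons_self,
      h0γ] at h10
    rw [hc, ← h10, hcl 3, if_pos rfl, if_neg (by omega), h3γ, if_neg (by omega),
      if_neg (by omega)]
    rfl
  · rw [k2 c hc]

theorem only_ph {σ : ℕ → Option ℕ} {j x : ℕ} (h : 3 * j + 1 ∈ ph σ [0] x) :
    ∃ i, x = 3 * i + 1 ∧ σ i = some j := by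
  unfold ph at h
  split_ifs at h with h1 h2 h3 h4
  · obtain ⟨i, hi, hj⟩ := List.mem_map.1 h
    refine ⟨x / 3, by omega, ?_⟩
    rw [Option.mem_toList] at hi
    rw [hi]
    congr 1
    omega
  · have := List.mem_singleton.1 h
    omega
  · obtain ⟨i, hi, hj⟩ := List.mem_map.1 h
    omega
  · have := List.mem_singleton.1 h
    omega
  · have := List.mem_singleton.1 h
    omega

/-- the letters of the places of `P`, `Q` are between two letters `3` -/
theorem stepB {K G : List ℕ} (hG : GC β n P1 P2 Q1 Q2 e f a b z γ) (h0 : 0 ∉ K)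
    (h : K.flatMap (ph (fun i => if i = a ∨ i = b ∨ i = z then none else some i) [0]) =
        0 :: (G ++ [0])) (hGp : G.Perm (0 :: γ)) {i : ℕ}
    (hi : i ∈ (P1 ++ f :: P2) ++ (Q1 ++ e :: Q2)) : Btw 3 (3 * i + 1) K := by
  apply btw_lift (c' := 3 * i + 1) h0 h
  · rw [hGp.mem_iff]
    apply List.mem_cons_of_mem
    apply List.count_pos_iff.1
    rw [hG.nf.can.pl i hi]
    omega
  · intro x hx
    obtain ⟨j, hj, hj2⟩ := only_ph hx
    split_ifs at hj2 with h1
    have : j = i := by simpa using hj2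
    rw [hj, this]

/-- the letter of the place `z` is between two letters `3` -/
theorem stepZ (hGhh : GhhStmt) (hG : GC β n P1 P2 Q1 Q2 e f a b z γ) {K : List ℕ} (h0 : 0 ∉ K)
    (hr : RR β (Wm (P1 ++ a :: b :: f :: P2) (Q1 ++ e :: z :: Q2)
      (3 :: (3 * z + 1) :: (γ ++ [3, 3, 3 * a + 1, 3 * b + 1])))
        (Wm (P1 ++ a :: b :: f :: P2) (Q1 ++ e :: z :: Q2) K)) : Btw 3 (3 * z + 1) K := by
  obtain ⟨⟨n1, n2, n3, n4, n5, n6, n7, n8, n9, n10⟩, nP⟩ := nd_facts hG.nd
  have hcan := hG.nf.can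
  obtain ⟨σ, hσ⟩ : ∃ σ : ℕ → Option ℕ, σ = fun i => if i = e ∨ i = a ∨ i = b then none else
    if i = z then some e else some i := ⟨_, rfl⟩
  have hσ1 : ∀ i, i ≠ e → i ≠ a → i ≠ b → i ≠ z → σ i = some i := by
    intro i h1 h2 h3 h4
    rw [hσ]
    simp only [h1, h2, h3, h4, or_self, if_false]
  have hσe : σ e = none := by
    rw [hσ]
    simp
  have hσa : σ a = none := by
    rw [hσ]
    simp
  have hσb : σ b = none := by
    rw [hσ]
    simp
  have hσz : σ z = some e := by
    rw [hσ]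
    simp only [n10.symm, n4.symm, n7.symm, or_self, if_false, if_true]
  have hP : (P1 ++ a :: b :: f :: P2).filterMap σ = P1 ++ f :: P2 := by
    rw [List.filterMap_append, List.filterMap_cons_none hσa, List.filterMap_cons_none hσb,
      List.filterMap_cons_some (hσ1 f n8 n2.symm n5.symm n9), fm_id (l := P1), fm_id (l := P2)]
    · intro i hi
      obtain ⟨h1, h2, _, h4, h5⟩ := nP i (by simp [hi])
      exact hσ1 i h4 h1 h2 h5
    · intro i hi
      obtain ⟨h1, h2, _, h4, h5⟩ := nP i (by simp [hi])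
      exact hσ1 i h4 h1 h2 h5
  have hQ : (Q1 ++ e :: z :: Q2).filterMap σ = Q1 ++ e :: Q2 := by
    rw [List.filterMap_append, List.filterMap_cons_none hσe,
      List.filterMap_cons_some hσz, fm_id (l := Q1), fm_id (l := Q2)]
    · intro i hi
      obtain ⟨h1, h2, _, h4, h5⟩ := nP i (by simp [hi])
      exact hσ1 i h4 h1 h2 h5
    · intro i hi
      obtain ⟨h1, h2, _, h4, h5⟩ := nP i (by simp [hi])
      exact hσ1 i h4 h1 h2 h5
  obtain ⟨l, hl⟩ := hG.hd
  have hce : γ.count (3 * e + 1) = 1 := hcan.pl e (by simp)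
  have hel : 3 * e + 1 ∉ l := by
    intro h
    rw [hl, List.count_cons_self] at hce
    have := List.count_pos_iff.2 h
    omega
  have hfix : l.flatMap (ph σ [0]) = l := by
    apply can_fix hcan (fun c hc => by rw [hl]; exact List.mem_cons_of_mem _ hc)
    intro i hi hil
    have h1 : i ≠ e := fun h => hel (by rw [← h]; exact hil)
    simp only [List.mem_append, List.mem_cons] at hi
    have hif : i = f ∨ i ∈ P1 ++ (P2 ++ (Q1 ++ Q2)) := by
      simp only [List.mem_append]
      tauto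
    rcases hif with h | h
    · rw [h]
      exact hσ1 f n8 n2.symm n5.symm n9
    · obtain ⟨h2, h3, _, h4, h5⟩ := nP i h
      exact hσ1 i h4 h2 h3 h5
  have hL : (3 :: (3 * z + 1) :: (γ ++ [3, 3, 3 * a + 1, 3 * b + 1])).flatMap (ph σ [0]) =
      0 :: (γ ++ [0, 0]) := by
    rw [hl]
    simp only [List.flatMap_cons, List.flatMap_append, List.flatMap_nil, ph_place, ph_three,
      hσz, hσa, hσb, hσe, hfix]
    simp
  have h4 := hr.sub (ph σ [0])
  rw [Wm_ph, Wm_ph, hP, hQ, hL] at h4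
  obtain ⟨G, hG1, hG2⟩ := hGhh β n _ _ γ hG.nf _ h4
  have h5 := Wm_inj hG2
  apply btw_lift (c' := 3 * e + 1) h0 h5
  · rw [hG1.mem_iff, hl]
    simp
  · intro x hx
    obtain ⟨j, hj, hj2⟩ := only_ph hx
    rw [hσ] at hj2
    simp only at hj2
    split_ifs at hj2 with h6 h7
    · rw [hj, h7]
    · have : j = e := by simpa using hj2
      exact absurd (Or.inl this) h6

theorem sfr_blk {P Q L : List ℕ} (hL : SFr L) : ∀ r ∈ lab P Q, SFr (blk L r) := by
  intro r hr
  rcases mem_lab.1 hr with h | ⟨i, _, h⟩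
  · rw [h, blk_zero]
    exact hL
  · rw [h, blk_succ]
    intro c hc
    rw [List.mem_singleton.1 hc]
    omega

/-- insertion at the beginning and at the end of the main block -/
theorem insMain (hIrl : IrlStmt) {P Q L L' : List ℕ} (hnd : (P ++ Q).Nodup) (hL : SFr L)
    (hL' : SFr L') (X Y : List ℕ) (hr : RR β (Wm P Q L) (Wm P Q L')) :
    RR β (Wm P Q (X ++ (L ++ Y))) (Wm P Q (X ++ (L' ++ Y))) := by
  have h1 := hIrl β (lab P Q) (blk L) (blk L') (fun r => if r = 0 then X else [])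
    (fun r => if r = 0 then Y else []) [] [] [] [] (nodup_lab hnd) (sfr_blk hL) (sfr_blk hL')
    (fun c hc => absurd hc List.not_mem_nil) (fun c hc => absurd hc List.not_mem_nil)
    (by rw [List.append_nil, List.append_nil]; exact hr)
  have e1 : ∀ M : List ℕ, Bw (lab P Q) (fun r => (if r = 0 then X else []) ++ (blk M r ++
      (if r = 0 then Y else []))) ++ ([] ++ ([] ++ [])) = Wm P Q (X ++ (M ++ Y)) := by
    intro M
    rw [List.append_nil, List.append_nil, Wm_def, List.append_nil]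
    apply Bw_cgr
    intro r hr
    rcases mem_lab.1 hr with h | ⟨i, _, h⟩
    · rw [h, blk_zero]
      simp only [if_true, blk_zero]
    · rw [h]
      simp only [blk_succ, if_neg (show ¬ i + 1 = 0 by omega), List.nil_append, List.append_nil]
  rw [e1, e1] at h1
  exact h1

/-- erasing the letters `3` -/
theorem erase3 {P Q L L' : List ℕ} (hr : RR β (Wm P Q L) (Wm P Q L')) :
    RR β (Wm P Q (L.filter (fun c => decide (c ≠ 3)))) (Wm P Q (L'.filter (fun c =>
      decide (c ≠ 3)))) := by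
  have h := hr.filter (fun c => decide (c ≠ 3))
  have e1 : ∀ R : List ℕ, (pl R).filter (fun c => decide (c ≠ 3)) = pl R := by
    intro R
    rw [List.filter_eq_self]
    intro c hc
    rw [mem_pl] at hc
    rw [decide_eq_true_iff]
    obtain ⟨i, _, h | h⟩ := hc <;> omega
  have e2 : ∀ M : List ℕ, (Wm P Q M).filter (fun c => decide (c ≠ 3)) =
      Wm P Q (M.filter (fun c => decide (c ≠ 3))) := by
    intro M
    rw [Wm_eq, Wm_eq, List.filter_append, List.filter_append,
      List.filter_cons_of_pos (by rw [decide_eq_true_iff]; omega), e1, e1]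
  rw [e2, e2] at h
  exact h

/-- the last letter `3` is before the letter of the place `a` -/
theorem stepL (hGhh : GhhStmt) (hIrl : IrlStmt) (hOrd : OrdStmt) (hCtx : CtxStmt)
    (hG : GC β n P1 P2 Q1 Q2 e f a b z γ) {K G : List ℕ} (h0 : 0 ∉ K)
    (hKp : K.Perm (3 :: (3 * z + 1) :: (γ ++ [3, 3, 3 * a + 1, 3 * b + 1])))
    (hr : RR β (Wm (P1 ++ a :: b :: f :: P2) (Q1 ++ e :: z :: Q2)
      (3 :: (3 * z + 1) :: (γ ++ [3, 3, 3 * a + 1, 3 * b + 1])))
        (Wm (P1 ++ a :: b :: f :: P2) (Q1 ++ e :: z :: Q2) K))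
    (hK1 : K.flatMap (ph (fun i => if i = a ∨ i = b ∨ i = z then none else some i) [0]) =
        0 :: (G ++ [0])) : LA 3 (3 * a + 1) K := by
  obtain ⟨⟨n1, n2, n3, n4, n5, n6, n7, n8, n9, n10⟩, nP⟩ := nd_facts hG.nd
  have hcan := hG.nf.can
  have hc := hG.nf.hc
  have hmP : ∀ i, i ∈ (P1 ++ f :: P2) ++ (Q1 ++ e :: Q2) ↔
      i = f ∨ i = e ∨ i ∈ P1 ++ (P2 ++ (Q1 ++ Q2)) := by
    intro i
    simp only [List.mem_append, List.mem_cons]
    tauto
  have hne : ∀ i ∈ (P1 ++ f :: P2) ++ (Q1 ++ e :: Q2), i ≠ a ∧ i ≠ b ∧ i ≠ z := by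
    intro i hi
    rcases (hmP i).1 hi with h | h | h
    · rw [h]
      exact ⟨n2.symm, n5.symm, n9⟩
    · rw [h]
      exact ⟨n3.symm, n6.symm, n10⟩
    · obtain ⟨h1, h2, _, _, h5⟩ := nP i h
      exact ⟨h1, h2, h5⟩
  have haγ : γ.count (3 * a + 1) = 0 := can_place0 hcan (fun h => (hne a h).1 rfl)
  have hbγ : γ.count (3 * b + 1) = 0 := can_place0 hcan (fun h => (hne b h).2.1 rfl)
  have hzγ : γ.count (3 * z + 1) = 0 := can_place0 hcan (fun h => (hne z h).2.2 rfl)
  have h3γ : γ.count 3 = 0 := can_count0 hcan (by omega) (fun i _ => by omega)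
  have hKc : ∀ c, K.count c = (if c = 3 then 3 else 0) + (if c = 3 * z + 1 then 1 else 0) +
      γ.count c + (if c = 3 * a + 1 then 1 else 0) + (if c = 3 * b + 1 then 1 else 0) := by
    intro c
    rw [hKp.count_eq]
    simp only [List.count_cons, List.count_append, List.count_nil, beq_iff_eq,
      @eq_comm ℕ 3 c, @eq_comm ℕ (3 * z + 1) c, @eq_comm ℕ (3 * a + 1) c,
      @eq_comm ℕ (3 * b + 1) c]
    split_ifs <;> omega
  have hKa : K.count (3 * a + 1) = 1 := by
    rw [hKc, haγ, if_neg (by omega), if_neg (by omega), if_pos rfl, if_neg (by omega)]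
  have hKs : ∀ c ∈ K, c % 3 ≠ 2 := by
    intro c hcK
    rw [hKp.mem_iff] at hcK
    simp only [List.mem_cons, List.mem_append, List.not_mem_nil, or_false] at hcK
    rcases hcK with h | h | h | h | h | h | h
    · omega
    · omega
    · exact hcan.sf c h
    · omega
    · omega
    · omega
    · omega
  obtain ⟨A, C, hAC⟩ := List.append_of_mem (List.count_pos_iff.1 (by omega : 0 < K.count (3 * a + 1)))
  by_cases h3C : 3 ∈ C
  swap
  · exact ⟨A, C, hAC, h3C⟩
  exfalso
  have hA0 : 3 * a + 1 ∉ A := by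
    intro h
    rw [hAC, List.count_append, List.count_cons_self] at hKa
    have := List.count_pos_iff.2 h
    omega
  have hC0 : 3 * a + 1 ∉ C := by
    intro h
    rw [hAC, List.count_append, List.count_cons_self] at hKa
    have := List.count_pos_iff.2 h
    omega
  obtain ⟨γ2, hγ2⟩ := hG.lt
  have hcf : γ.count (3 * f + 1) = 1 := hcan.pl f (by simp)
  have hfl : 3 * f + 1 ∉ γ2 := by
    intro h
    rw [hγ2, List.count_append] at hcf
    have h1 := List.count_pos_iff.2 h
    simp at hcf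
    omega
  -- the order of the letters of `f` and `a`
  have hbf : Bfr K (3 * f + 1) (3 * a + 1) := by
    have hLs : SFr (3 :: (3 * z + 1) :: (γ ++ [3, 3, 3 * a + 1, 3 * b + 1])) := by
      intro c hcL
      exact hKs c (hKp.mem_iff.2 hcL)
    have hcnt : ∀ (L : List ℕ) (i : ℕ), L.count (3 * i + 1) = 1 →
        ∀ q ∈ lab (P1 ++ a :: b :: f :: P2) (Q1 ++ e :: z :: Q2), (blk L q).count (3 * i + 1) =
          if q = 0 ∨ q = i + 1 then 1 else 0 := by
      intro L i hL q hq
      rcases mem_lab.1 hq with h | ⟨j, _, h⟩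
      · rw [h, blk_zero, if_pos (Or.inl rfl), hL]
      · rw [h, blk_succ]
        by_cases hij : j = i
        · rw [hij, if_pos (Or.inr rfl)]
          simp
        · rw [if_neg (by omega)]
          apply List.count_eq_zero.2
          intro h4
          have := List.mem_singleton.1 h4
          omega
    have hKf : K.count (3 * f + 1) = 1 := by
      rw [hKc, hcf, if_neg (by omega), if_neg (by omega), if_neg (by omega), if_neg (by omega)]
    have h4 := hOrd β hc.i3 (lab (P1 ++ a :: b :: f :: P2) (Q1 ++ e :: z :: Q2))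
      (blk (3 :: (3 * z + 1) :: (γ ++ [3, 3, 3 * a + 1, 3 * b + 1]))) (blk K)
      (nodup_lab hG.nd) (sfr_blk hLs) (sfr_blk hKs) hr 0 (f + 1) (a + 1) (3 * f + 1)
      (3 * a + 1) (mem_lab.2 (Or.inl rfl)) (mem_lab.2 (Or.inr ⟨f, by simp, rfl⟩))
      (mem_lab.2 (Or.inr ⟨a, by simp, rfl⟩)) (by omega) (by omega) (by omega) (by omega)
      (by omega) (by omega)
      (hcnt _ f (by rw [← hKp.count_eq]; exact hKf)) (hcnt _ a (by rw [← hKp.count_eq]; exact hKa))
      (hcnt _ f hKf) (hcnt _ a hKa)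
    apply h4
    · have k1 : Bfr (lab (P1 ++ a :: b :: f :: P2) (Q1 ++ e :: z :: Q2)) (f + 1) 0 := by
        refine ⟨(P1 ++ [a, b]).map (fun e => e + 1), P2.map (fun e => e + 1),
          (Q1 ++ e :: z :: Q2).map (fun e => e + 1), ?_⟩
        unfold lab
        simp
      have k2 : Bfr (lab (P1 ++ a :: b :: f :: P2) (Q1 ++ e :: z :: Q2)) (a + 1) 0 := by
        refine ⟨P1.map (fun e => e + 1), (b :: f :: P2).map (fun e => e + 1),
          (Q1 ++ e :: z :: Q2).map (fun e => e + 1), ?_⟩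
        unfold lab
        simp
      exact ⟨fun _ _ => not_s3 hCtx hc.s2 hc.na, fun h => absurd k1 h, fun _ h => absurd k2 h,
        fun h => absurd k1 h⟩
    · refine ⟨3 :: (3 * z + 1) :: γ2, [3, 3], [3 * b + 1], ?_⟩
      rw [blk_zero, hγ2]
      simp
  have hfA : 3 * f + 1 ∈ A := by
    obtain ⟨A', B', C', h1⟩ := hbf
    have h2 : A ++ (3 * a + 1) :: C = (A' ++ (3 * f + 1) :: B') ++ (3 * a + 1) :: C' := by
      rw [← hAC, h1]
      simp
    have h3 := (List.append_cons_inj_of_notMem hA0 hC0).1 h2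
    rw [h3.1]
    simp
  -- the first and the last letter
  obtain ⟨σ, hσ⟩ : ∃ σ : ℕ → Option ℕ,
    σ = fun i => if i = a ∨ i = b ∨ i = z then none else some i := ⟨_, rfl⟩
  rw [← hσ] at hK1
  have hσ1 : ∀ i, σ i = none → i = a ∨ i = b ∨ i = z := by
    intro i h
    rw [hσ] at h
    by_contra hno
    simp only [if_neg hno] at h
    exact absurd h (by simp)
  have hσa : σ a = none := by
    rw [hσ]
    simp
  have hσf : σ f = some f := by
    rw [hσ]
    simp only [n2.symm, n5.symm, n9, or_self, if_false]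
  have h0A : 0 ∉ A := fun h => h0 (by rw [hAC]; simp [h])
  have h0C : 0 ∉ C := fun h => h0 (by rw [hAC]; simp [h])
  rw [hAC, List.flatMap_append, List.flatMap_cons, ph_place, hσa] at hK1
  have hK2 : A.flatMap (ph σ [0]) ++ C.flatMap (ph σ [0]) = 0 :: (G ++ [0]) := by
    rw [← hK1]
    rfl
  have hAne : A.flatMap (ph σ [0]) ≠ [] := by
    intro h
    have h1 : 3 * f + 1 ∈ A.flatMap (ph σ [0]) := by
      rw [List.mem_flatMap]
      refine ⟨3 * f + 1, hfA, ?_⟩
      rw [ph_place, hσf]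
      simp
    rw [h] at h1
    exact absurd h1 List.not_mem_nil
  have hCne : C.flatMap (ph σ [0]) ≠ [] := by
    intro h
    have h1 : 0 ∈ C.flatMap (ph σ [0]) := by
      rw [List.mem_flatMap]
      refine ⟨3, h3C, ?_⟩
      rw [ph_three]
      simp
    rw [h] at h1
    exact absurd h1 List.not_mem_nil
  obtain ⟨A1, hA1⟩ : ∃ A1, A.flatMap (ph σ [0]) = 0 :: A1 := by
    cases h : A.flatMap (ph σ [0]) with
    | nil => exact absurd h hAne
    | cons x A1 =>
      rw [h] at hK2
      have h2 : x = 0 := by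
        have := hK2
        simp only [List.cons_append, List.cons.injEq] at this
        exact this.1
      exact ⟨A1, by rw [h2]⟩
  obtain ⟨C1, hC1⟩ : ∃ C1, C.flatMap (ph σ [0]) = C1 ++ [0] := by
    rcases List.eq_nil_or_concat (C.flatMap (ph σ [0])) with h | ⟨C1, x, h⟩
    · exact absurd h hCne
    · have h1 : C.flatMap (ph σ [0]) = C1 ++ [x] := by simpa using h
      rw [h1, ← List.append_assoc] at hK2
      have h2 : (A.flatMap (ph σ [0]) ++ C1) ++ [x] = (0 :: G) ++ [0] := by
        rw [hK2]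
        rfl
      have h3 := (List.append_inj' h2 rfl).2
      have h4 : x = 0 := by simpa using h3
      exact ⟨C1, by rw [h1, h4]⟩
  obtain ⟨K1, A2, hA2, hK1e, _⟩ := flat_cons h0A hA1
  obtain ⟨C2, K4, hC2, _, hK4e⟩ := flat_concat h0C hC1
  -- erase the places `b` and `z`
  obtain ⟨τ, hτ⟩ : ∃ τ : ℕ → Option ℕ, τ = fun i => if i = z ∨ i = b then none else some i :=
    ⟨_, rfl⟩
  have hτ1 : ∀ i, i ≠ b → i ≠ z → τ i = some i := by
    intro i h1 h2
    rw [hτ]
    simp only [h1, h2, or_self, if_false]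
  have hτb : τ b = none := by
    rw [hτ]
    simp
  have hτz : τ z = none := by
    rw [hτ]
    simp
  have hnil : ∀ l : List ℕ, (∀ x ∈ l, x % 3 ≠ 2) → 3 * a + 1 ∉ l → l.flatMap (ph σ [0]) = [] →
      l.flatMap (ph τ [3]) = [] := by
    intro l h1 h2 h3
    rw [List.flatMap_eq_nil_iff] at h3 ⊢
    intro x hx
    have h4 := h3 x hx
    have h5 := h1 x hx
    unfold ph at h4 ⊢
    by_cases h6 : x % 3 = 1
    · rw [if_pos h6] at h4 ⊢
      have h7 : σ (x / 3) = none := by
        cases h8 : σ (x / 3) with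
        | none => rfl
        | some j =>
          rw [h8] at h4
          simp at h4
      rcases hσ1 _ h7 with h8 | h8 | h8
      · exfalso
        apply h2
        have : x = 3 * a + 1 := by omega
        rw [← this]
        exact hx
      · rw [h8, hτb]
        rfl
      · rw [h8, hτz]
        rfl
    · rw [if_neg h6, if_neg h5] at h4
      split_ifs at h4
  have hP3 : (P1 ++ a :: b :: f :: P2).filterMap τ = P1 ++ a :: f :: P2 := by
    rw [List.filterMap_append, List.filterMap_cons_some (hτ1 a n1 n4),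
      List.filterMap_cons_none hτb, List.filterMap_cons_some (hτ1 f n5.symm n9),
      fm_id (l := P1), fm_id (l := P2)]
    · intro i hi
      obtain ⟨_, h2, _, _, h5⟩ := nP i (by simp [hi])
      exact hτ1 i h2 h5
    · intro i hi
      obtain ⟨_, h2, _, _, h5⟩ := nP i (by simp [hi])
      exact hτ1 i h2 h5
  have hQ3 : (Q1 ++ e :: z :: Q2).filterMap τ = Q1 ++ e :: Q2 := by
    rw [List.filterMap_append, List.filterMap_cons_some (hτ1 e n6.symm n10),
      List.filterMap_cons_none hτz, fm_id (l := Q1), fm_id (l := Q2)]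
    · intro i hi
      obtain ⟨_, h2, _, _, h5⟩ := nP i (by simp [hi])
      exact hτ1 i h2 h5
    · intro i hi
      obtain ⟨_, h2, _, _, h5⟩ := nP i (by simp [hi])
      exact hτ1 i h2 h5
  have hγ3 : γ.flatMap (ph τ [3]) = γ := by
    apply can_fix hcan (fun c hc => hc)
    intro i hi _
    exact hτ1 i (hne i hi).2.1 (hne i hi).2.2
  have hL3 : (3 :: (3 * z + 1) :: (γ ++ [3, 3, 3 * a + 1, 3 * b + 1])).flatMap (ph τ [3]) =
      3 :: (γ ++ [3, 3, 3 * a + 1]) := by
    simp only [List.flatMap_cons, List.flatMap_append, List.flatMap_nil, ph_place, ph_three,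
      hτz, hτb, hτ1 a n1 n4, hγ3]
    simp
  have hKsA : ∀ x ∈ A, x % 3 ≠ 2 := fun x hx => hKs x (by rw [hAC]; simp [hx])
  have hKsC : ∀ x ∈ C, x % 3 ≠ 2 := fun x hx => hKs x (by rw [hAC]; simp [hx])
  have hK3 : K.flatMap (ph τ [3]) =
      3 :: ((A2.flatMap (ph τ [3]) ++ (3 * a + 1) :: C2.flatMap (ph τ [3])) ++ [3]) := by
    have e1 := hnil K1 (fun x hx => hKsA x (by rw [hA2]; simp [hx]))
      (fun h => hA0 (by rw [hA2]; simp [h])) hK1e
    have e2 := hnil K4 (fun x hx => hKsC x (by rw [hC2]; simp [hx]))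
      (fun h => hC0 (by rw [hC2]; simp [h])) hK4e
    rw [hAC, hA2, hC2]
    simp only [List.flatMap_cons, List.flatMap_append, ph_place, ph_three, hτ1 a n1 n4, e1, e2]
    simp
  obtain ⟨M, hM⟩ : ∃ M : List ℕ, M = A2.flatMap (ph τ [3]) ++
    (3 * a + 1) :: C2.flatMap (ph τ [3]) := ⟨_, rfl⟩
  rw [← hM] at hK3
  have hMp : ∀ c, M.count c = γ.count c + (if c = 3 then 1 else 0) +
      (if c = 3 * a + 1 then 1 else 0) := by
    intro c
    have h1 := (hKp.flatMap_right (ph τ [3])).count_eq c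
    rw [hK3, hL3] at h1
    simp only [List.count_cons, List.count_append, List.count_nil, beq_iff_eq,
      @eq_comm ℕ 3 c, @eq_comm ℕ (3 * a + 1) c] at h1
    split_ifs at h1 ⊢ <;> omega
  have hM3 : 3 ∈ M := by
    apply List.count_pos_iff.1
    rw [hMp, if_pos rfl]
    omega
  obtain ⟨x1, x2, hx⟩ := List.append_of_mem hM3
  have hr3 := hr.sub (ph τ [3])
  rw [Wm_ph, Wm_ph, hP3, hQ3, hL3, hK3, hx] at hr3
  have hnd3 : ((P1 ++ a :: f :: P2) ++ (Q1 ++ e :: Q2)).Nodup := by
    have h1 := hG.nd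
    have h2 : ((P1 ++ a :: b :: f :: P2) ++ (Q1 ++ e :: z :: Q2)).Perm
        (b :: z :: ((P1 ++ a :: f :: P2) ++ (Q1 ++ e :: Q2))) := by
      rw [List.perm_iff_count]
      intro c
      simp only [List.count_append, List.count_cons]
      omega
    rw [h2.nodup_iff] at h1
    exact (List.nodup_cons.1 (List.nodup_cons.1 h1).2).2
  have hx12 : ∀ c, c ≠ 3 → x1.count c + x2.count c = γ.count c +
      (if c = 3 * a + 1 then 1 else 0) := by
    intro c hc3
    have h1 := hMp c
    rw [hx, List.count_append, List.count_cons_of_ne (fun h => hc3 h.symm), if_neg hc3] at h1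
    omega
  have hx3 : x1.count 3 = 0 ∧ x2.count 3 = 0 := by
    have h1 := hMp 3
    rw [hx, List.count_append, List.count_cons_self, h3γ, if_pos rfl,
      if_neg (by omega)] at h1
    omega
  have hsx : ∀ c, c ∈ x1 ∨ c ∈ x2 → c ∈ γ ∨ c = 3 * a + 1 := by
    intro c hcx
    have hc3 : c ≠ 3 := by
      intro h
      rw [h] at hcx
      rcases hcx with h1 | h1
      · have := List.count_pos_iff.2 h1
        omega
      · have := List.count_pos_iff.2 h1
        omega
    have h1 := hx12 c hc3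
    have h2 : 0 < x1.count c + x2.count c := by
      rcases hcx with h | h
      · have := List.count_pos_iff.2 h
        omega
      · have := List.count_pos_iff.2 h
        omega
    by_cases h3 : c = 3 * a + 1
    · exact Or.inr h3
    · rw [if_neg h3] at h1
      exact Or.inl (List.count_pos_iff.1 (by omega))
  -- move the letter `3` in the middle to the right
  have hmv : RR β (Wm (P1 ++ a :: f :: P2) (Q1 ++ e :: Q2) (3 :: (x1 ++ 3 :: x2 ++ [3])))
      (Wm (P1 ++ a :: f :: P2) (Q1 ++ e :: Q2) ([3] ++ ((x1 ++ x2) ++ [3, 3]))) := by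
    have h1 := moveL hCtx hc.s2 3 x2 (pl (P1 ++ a :: f :: P2) ++ 3 :: x1)
      (3 :: 2 :: pl (Q1 ++ e :: Q2)) (by simp) (by simp) (by
        intro c hcx hc3
        have h2 := hx12 c hc3
        rcases hsx c (Or.inr hcx) with h3 | h3
        · rcases can_cases hcan h3 with ⟨i, hi, h4⟩ | ⟨h4, h5, h6⟩
          · have h5 : 1 ≤ (pl (P1 ++ a :: f :: P2)).count c + (pl (Q1 ++ e :: Q2)).count c := by
              rw [h4, count_pl, count_pl]
              have h6 : i ∈ P1 ++ a :: f :: P2 ∨ i ∈ Q1 ++ e :: Q2 := by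
                rcases List.mem_append.1 hi with h | h
                · left
                  simp only [List.mem_append, List.mem_cons] at h ⊢
                  tauto
                · exact Or.inr h
              rcases h6 with h | h
              · have := List.count_pos_iff.2 h
                omega
              · have := List.count_pos_iff.2 h
                omega
            have h6 := List.count_pos_iff.2 hcx
            simp only [List.count_append, List.count_cons]
            omega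
          · rw [h6] at h2
            have h7 : 2 ≤ x1.count c + x2.count c := by omega
            simp only [List.count_append, List.count_cons]
            omega
        · have h5 : 1 ≤ (pl (P1 ++ a :: f :: P2)).count c := by
            rw [h3, count_pl]
            exact List.count_pos_iff.2 (by simp)
          have h6 := List.count_pos_iff.2 hcx
          simp only [List.count_append, List.count_cons]
          omega)
    have e1 : Wm (P1 ++ a :: f :: P2) (Q1 ++ e :: Q2) (3 :: (x1 ++ 3 :: x2 ++ [3])) =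
        pl (P1 ++ a :: f :: P2) ++ 3 :: x1 ++ 3 :: (x2 ++ 3 :: 2 :: pl (Q1 ++ e :: Q2)) := by
      rw [Wm_eq]
      simp
    have e2 : Wm (P1 ++ a :: f :: P2) (Q1 ++ e :: Q2) ([3] ++ ((x1 ++ x2) ++ [3, 3])) =
        pl (P1 ++ a :: f :: P2) ++ 3 :: x1 ++ (x2 ++ 3 :: 3 :: 2 :: pl (Q1 ++ e :: Q2)) := by
      rw [Wm_eq]
      simp
    rw [e1, e2]
    exact h1.symm
  -- erase `3`
  have hf3 : ∀ l : List ℕ, l.count 3 = 0 → l.filter (fun c => decide (c ≠ 3)) = l := by
    intro l hl
    rw [List.filter_eq_self]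
    intro c hc
    rw [decide_eq_true_iff]
    intro h
    rw [h] at hc
    have := List.count_pos_iff.2 hc
    omega
  have her := erase3 hr3
  have e1 : (3 :: (γ ++ [3, 3, 3 * a + 1])).filter (fun c => decide (c ≠ 3)) =
      γ ++ [3 * a + 1] := by
    rw [List.filter_cons_of_neg (by simp), List.filter_append, hf3 γ h3γ,
      List.filter_cons_of_neg (by simp), List.filter_cons_of_neg (by simp),
      List.filter_cons_of_pos (by rw [decide_eq_true_iff]; omega)]
    rfl
  have e2 : (3 :: (x1 ++ 3 :: x2 ++ [3])).filter (fun c => decide (c ≠ 3)) = x1 ++ x2 := by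
    rw [List.filter_cons_of_neg (by simp), List.filter_append, List.filter_append, hf3 x1 hx3.1,
      List.filter_cons_of_neg (by simp), hf3 x2 hx3.2, List.filter_cons_of_neg (by simp)]
    simp
  rw [e1, e2] at her
  have hs1 : SFr (γ ++ [3 * a + 1]) := by
    intro c hc
    rcases List.mem_append.1 hc with h | h
    · exact hcan.sf c h
    · rw [List.mem_singleton.1 h]
      omega
  have hs2 : SFr (x1 ++ x2) := by
    intro c hc
    rcases hsx c (List.mem_append.1 hc) with h | h
    · exact hcan.sf c h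
    · rw [h]
      omega
  have hins := insMain hIrl hnd3 hs1 hs2 [3] [3, 3] her
  have hfin : RR β (Wm (P1 ++ a :: f :: P2) (Q1 ++ e :: Q2) (3 :: (γ ++ [3, 3, 3 * a + 1])))
      (Wm (P1 ++ a :: f :: P2) (Q1 ++ e :: Q2) ([3] ++ ((γ ++ [3 * a + 1]) ++ [3, 3]))) :=
    rtr hr3 (rtr hmv hins.symm)
  -- erase `f`, rename `a` to `f`
  obtain ⟨υ, hυ⟩ : ∃ υ : ℕ → Option ℕ, υ = fun i => if i = f then none else
    if i = a then some f else some i := ⟨_, rfl⟩
  have hυf : υ f = none := by
    rw [hυ]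
    simp
  have hυa : υ a = some f := by
    rw [hυ]
    simp only [n2, if_false, if_true]
  have hυ1 : ∀ i, i ≠ a → i ≠ f → υ i = some i := by
    intro i h1 h2
    rw [hυ]
    simp only [h1, h2, if_false]
  have hP4 : (P1 ++ a :: f :: P2).filterMap υ = P1 ++ f :: P2 := by
    rw [List.filterMap_append, List.filterMap_cons_some hυa, List.filterMap_cons_none hυf,
      fm_id (l := P1), fm_id (l := P2)]
    · intro i hi
      obtain ⟨h1, _, h3, _, _⟩ := nP i (by simp [hi])
      exact hυ1 i h1 h3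
    · intro i hi
      obtain ⟨h1, _, h3, _, _⟩ := nP i (by simp [hi])
      exact hυ1 i h1 h3
  have hQ4 : (Q1 ++ e :: Q2).filterMap υ = Q1 ++ e :: Q2 := by
    rw [List.filterMap_append, List.filterMap_cons_some (hυ1 e n3.symm n8.symm),
      fm_id (l := Q1), fm_id (l := Q2)]
    · intro i hi
      obtain ⟨h1, _, h3, _, _⟩ := nP i (by simp [hi])
      exact hυ1 i h1 h3
    · intro i hi
      obtain ⟨h1, _, h3, _, _⟩ := nP i (by simp [hi])
      exact hυ1 i h1 h3
  have hγ4 : γ2.flatMap (ph υ [0]) = γ2 := by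
    apply can_fix hcan (fun c hc => by rw [hγ2]; exact List.mem_append_left _ hc)
    intro i hi hil
    exact hυ1 i (hne i hi).1 (fun h => hfl (by rw [← h]; exact hil))
  have hL4 : (3 :: (γ ++ [3, 3, 3 * a + 1])).flatMap (ph υ [0]) =
      0 :: (γ2 ++ [0, 0, 3 * f + 1]) := by
    rw [hγ2]
    simp only [List.flatMap_cons, List.flatMap_append, List.flatMap_nil, ph_place, ph_three,
      hυf, hυa, hγ4]
    simp
  have hL5 : ([3] ++ ((γ ++ [3 * a + 1]) ++ [3, 3])).flatMap (ph υ [0]) =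
      0 :: (γ ++ [0, 0]) := by
    rw [hγ2]
    simp only [List.flatMap_cons, List.flatMap_append, List.flatMap_nil, ph_place, ph_three,
      hυf, hυa, hγ4]
    simp
  have h4 := hfin.sub (ph υ [0])
  rw [Wm_ph, Wm_ph, hP4, hQ4, hL4, hL5] at h4
  obtain ⟨G', _, hG2⟩ := hGhh β n _ _ γ hG.nf _ h4.symm
  have h5 := Wm_inj hG2
  have h6 : (0 :: (γ2 ++ [0, 0])) ++ [3 * f + 1] = (0 :: G') ++ [0] := by
    have e3 : (0 :: (γ2 ++ [0, 0])) ++ [3 * f + 1] = 0 :: (γ2 ++ [0, 0, 3 * f + 1]) := by simp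
    rw [e3, h5]
    rfl
  have h7 := (List.append_inj' h6 rfl).2
  simp at h7

end Main

end StcRow

open StcRow in
/-- **STC** -/
theorem stc (hSha : ShaStmt) (hGhh : GhhStmt) (hIrl : IrlStmt) (hOrd : OrdStmt)
    (hCtx : CtxStmt) : StcStmt := by
  intro β n P1 P2 Q1 Q2 e f a b z γ hG u hr
  obtain ⟨K, G, hK, hu, hK1, hGp⟩ := stepA hSha hGhh hG hr
  rw [hu] at hr
  have h0 : 0 ∉ K := by
    intro h
    rw [hK.mem_iff] at h
    have hcan := hG.nf.can
    simp only [List.mem_cons, List.mem_append, List.not_mem_nil, or_false] at h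
    rcases h with h | h | h | h | h | h | h
    · omega
    · omega
    · have := (hcan.lc 0 h (by omega)).2
      omega
    · omega
    · omega
    · omega
    · omega
  refine ⟨K, hK, hu, ?_, ?_, ?_⟩
  · intro i hi
    by_cases hiz : i = z
    · rw [hiz]
      exact stepZ hGhh hG h0 hr
    · apply stepB hG h0 hK1 hGp
      apply List.mem_append_right
      simp only [List.mem_append, List.mem_cons] at hi ⊢
      tauto
  · exact stepB hG h0 hK1 hGp (by simp)
  · exact stepL hGhh hIrl hOrd hCtx hG h0 hK hr hK1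

end Pool.Agent.MVD.H47
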